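import Mathlib
import Pool.Agent.helper70.GB.Defs

/-!
# The elementary group: basic API (project gb, MP_7933bc)

Maps, lifting along surjections, transposes, reindexing, unipotent matrices, block matrices,
rows (adding multiples of entries, signed swaps, units, permutations).
-/

set_option autoImplicit false

open Matrix

namespace GB

section Basic

variable {A B : Type*} [CommRing A] [CommRing B] {ι κ : Type*} [Fintype ι] [DecidableEq ι]
  [Fintype κ] [DecidableEq κ]

theorem E_mul {M N : Matrix ι ι A} (hM : M ∈ E ι A) (hN : N ∈ E ι A) : M * N ∈ E ι A :=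
  (E ι A).mul_mem hM hN

/-- induction on the elementary group, adding a transvection on the right -/
theorem E_induction {P : Matrix ι ι A → Prop} (h1 : P 1)
    (hmul : ∀ (M : Matrix ι ι A) (i j : ι) (c : A), i ≠ j → P M → P (M * transvection i j c))
    {M : Matrix ι ι A} (hM : M ∈ E ι A) : P M := by
  induction hM using Submonoid.closure_induction_right with
  | one => exact h1
  | mul_right M _ N hN ih =>
    obtain ⟨i, j, c, hij, rfl⟩ := hN
    exact hmul M i j c hij ih

omit [Fintype ι] in
theorem E_map_transvection (f : A →+* B) (i j : ι) (c : A) :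
    (transvection i j c).map f = transvection i j (f c) := by
  ext a b
  simp only [transvection, Matrix.map_apply, Matrix.add_apply, map_add, Matrix.single_apply,
    Matrix.one_apply]
  split_ifs <;> simp

theorem E_map (f : A →+* B) {M : Matrix ι ι A} (h : M ∈ E ι A) : M.map f ∈ E ι B := by
  induction h using Submonoid.closure_induction with
  | mem M hM =>
    obtain ⟨i, j, c, hij, rfl⟩ := hM
    rw [E_map_transvection]
    exact transvection_mem_E hij _
  | one =>
    rw [Matrix.map_one _ (map_zero f) (map_one f)]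
    exact one_mem_E
  | mul M N _ _ hM hN =>
    rw [Matrix.map_mul]
    exact E_mul hM hN

/-- elementary matrices lift along surjections -/
theorem E_lift (f : A →+* B) (hf : Function.Surjective f) {M : Matrix ι ι B} (h : M ∈ E ι B) :
    ∃ N ∈ E ι A, N.map f = M := by
  induction h using Submonoid.closure_induction with
  | mem M hM =>
    obtain ⟨i, j, c, hij, rfl⟩ := hM
    obtain ⟨c, rfl⟩ := hf c
    exact ⟨transvection i j c, transvection_mem_E hij _, E_map_transvection _ _ _ _⟩
  | one => exact ⟨1, one_mem_E, Matrix.map_one _ (map_zero f) (map_one f)⟩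
  | mul M N _ _ hM hN =>
    obtain ⟨M', hM', rfl⟩ := hM
    obtain ⟨N', hN', rfl⟩ := hN
    exact ⟨M' * N', E_mul hM' hN', Matrix.map_mul⟩

theorem E_transpose {M : Matrix ι ι A} (h : M ∈ E ι A) : Mᵀ ∈ E ι A := by
  induction h using Submonoid.closure_induction with
  | mem M hM =>
    obtain ⟨i, j, c, hij, rfl⟩ := hM
    have : (transvection i j c)ᵀ = transvection j i c := by
      simp only [transvection, Matrix.transpose_add, Matrix.transpose_one,
        Matrix.transpose_single]
    rw [this]
    exact transvection_mem_E hij.symm _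
  | one => rw [Matrix.transpose_one]; exact one_mem_E
  | mul M N _ _ hM hN =>
    rw [Matrix.transpose_mul]
    exact E_mul hN hM

theorem E_submatrix (e : κ ≃ ι) {M : Matrix ι ι A} (h : M ∈ E ι A) :
    M.submatrix e e ∈ E κ A := by
  induction h using Submonoid.closure_induction with
  | mem M hM =>
    obtain ⟨i, j, c, hij, rfl⟩ := hM
    have : (transvection i j c).submatrix e e = transvection (e.symm i) (e.symm j) c := by
      ext a b
      simp only [transvection, Matrix.submatrix_apply, Matrix.add_apply, Matrix.single_apply,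
        Matrix.one_apply, e.injective.eq_iff, Equiv.symm_apply_eq]
    rw [this]
    exact transvection_mem_E (fun h => hij (e.symm.injective h)) _
  | one => rw [Matrix.submatrix_one_equiv]; exact one_mem_E
  | mul M N _ _ hM hN =>
    rw [← Matrix.submatrix_mul_equiv M N e e e]
    exact E_mul hM hN

theorem E_reindex (e : ι ≃ κ) {M : Matrix ι ι A} (h : M ∈ E ι A) :
    Matrix.reindex e e M ∈ E κ A := E_submatrix e.symm h

/-! ### Unipotent matrices -/

/-- `1 + N` is elementary if `N i j = 0` unless `i` has the property `P` and `j` does not -/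
theorem E_one_add (P : ι → Prop) (N : Matrix ι ι A) (hN : ∀ i j, ¬ (P i ∧ ¬ P j) → N i j = 0) :
    1 + N ∈ E ι A := by
  classical
  have key : ∀ T : Finset (ι × ι),
      1 + ∑ q ∈ T, Matrix.single q.1 q.2 (N q.1 q.2) ∈ E ι A := by
    intro T
    induction T using Finset.induction_on with
    | empty => simp
    | insert q T hq ih =>
      rw [Finset.sum_insert hq]
      by_cases hP : P q.1 ∧ ¬ P q.2
      · have hne : q.1 ≠ q.2 := fun h => hP.2 (h ▸ hP.1)
        have hzero : Matrix.single q.1 q.2 (N q.1 q.2) *
            ∑ x ∈ T, Matrix.single x.1 x.2 (N x.1 x.2) = 0 := by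
          rw [Finset.mul_sum]
          refine Finset.sum_eq_zero fun x _ => ?_
          by_cases hx : q.2 = x.1
          · have : N x.1 x.2 = 0 := hN _ _ (fun h => hP.2 (hx ▸ h.1))
            rw [this, Matrix.single_zero, Matrix.mul_zero]
          · exact Matrix.single_mul_single_of_ne _ _ _ _ hx _
        have : 1 + (Matrix.single q.1 q.2 (N q.1 q.2) + ∑ x ∈ T, Matrix.single x.1 x.2 (N x.1 x.2))
            = transvection q.1 q.2 (N q.1 q.2) * (1 + ∑ x ∈ T, Matrix.single x.1 x.2 (N x.1 x.2)) := by
          rw [transvection, add_mul, one_mul, mul_add, mul_one, hzero]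
          abel
        rw [this]
        exact E_mul (transvection_mem_E hne _) ih
      · rw [hN _ _ hP, Matrix.single_zero, zero_add]
        exact ih
  have h := key Finset.univ
  have h2 : ∑ q : ι × ι, Matrix.single q.1 q.2 (N q.1 q.2) = N := by
    rw [Fintype.sum_prod_type]
    exact (Matrix.matrix_eq_sum_single N).symm
  rw [h2] at h
  exact h

/-- `1 + x yᵀ` is elementary if the supports of `x` and `y` are disjoint -/
theorem E_one_add_vecMulVec (x y : ι → A) (h : ∀ i, x i = 0 ∨ y i = 0) :
    1 + vecMulVec x y ∈ E ι A := by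
  refine E_one_add (fun i => x i ≠ 0) _ ?_
  intro i j hij
  rw [vecMulVec_apply]
  by_cases hi : x i = 0
  · rw [hi, zero_mul]
  · have hj : x j ≠ 0 := by
      by_contra hj
      exact hij ⟨hi, fun h => h hj⟩
    rcases h j with h | h
    · exact absurd h hj
    · rw [h, mul_zero]

/-! ### Blocks -/

theorem E_blocks_upper (X : Matrix ι κ A) : fromBlocks 1 X 0 1 ∈ E (ι ⊕ κ) A := by
  have : (fromBlocks 1 X 0 1 : Matrix (ι ⊕ κ) (ι ⊕ κ) A) = 1 + fromBlocks 0 X 0 0 := by
    rw [← fromBlocks_one, fromBlocks_add]
    simp
  rw [this]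
  refine E_one_add (fun i => i.isLeft = true) _ ?_
  rintro (i | i) (j | j) h <;> simp at h ⊢

theorem E_blocks_lower (Y : Matrix κ ι A) : fromBlocks 1 0 Y 1 ∈ E (ι ⊕ κ) A := by
  have : (fromBlocks 1 0 Y 1 : Matrix (ι ⊕ κ) (ι ⊕ κ) A) = 1 + fromBlocks 0 0 Y 0 := by
    rw [← fromBlocks_one, fromBlocks_add]
    simp
  rw [this]
  refine E_one_add (fun i => i.isRight = true) _ ?_
  rintro (i | i) (j | j) h <;> simp at h ⊢

theorem E_blocks_left {M : Matrix ι ι A} (h : M ∈ E ι A) :
    fromBlocks M 0 0 (1 : Matrix κ κ A) ∈ E (ι ⊕ κ) A := by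
  induction h using Submonoid.closure_induction with
  | mem M hM =>
    obtain ⟨i, j, c, hij, rfl⟩ := hM
    have : fromBlocks (transvection i j c) 0 0 (1 : Matrix κ κ A) =
        transvection (Sum.inl i) (Sum.inl j) c := by
      ext a b
      rcases a with a | a <;> rcases b with b | b <;>
        simp [transvection, Matrix.single_apply, Matrix.one_apply]
    rw [this]
    exact transvection_mem_E (fun h => hij (Sum.inl_injective h)) _
  | one => rw [fromBlocks_one]; exact one_mem_E
  | mul M N _ _ hM hN =>
    have : fromBlocks (M * N) 0 0 (1 : Matrix κ κ A) =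
        fromBlocks M 0 0 1 * fromBlocks N 0 0 1 := by
      rw [fromBlocks_multiply]; simp
    rw [this]
    exact E_mul hM hN

theorem E_blocks_right {M : Matrix κ κ A} (h : M ∈ E κ A) :
    fromBlocks (1 : Matrix ι ι A) 0 0 M ∈ E (ι ⊕ κ) A := by
  have h1 := E_submatrix (Equiv.sumComm ι κ) (E_blocks_left (κ := ι) h)
  have : (fromBlocks M 0 0 (1 : Matrix ι ι A)).submatrix (Equiv.sumComm ι κ) (Equiv.sumComm ι κ) =
      fromBlocks 1 0 0 M := by
    ext a b
    rcases a with a | a <;> rcases b with b | b <;> simp
  rwa [this] at h1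

/-- matrices which are the identity outside the image of an embedding -/
theorem E_embed (f : ι ↪ κ) {M : Matrix ι ι A} (h : M ∈ E ι A) :
    ∃ N ∈ E κ A, (∀ i j, N (f i) (f j) = M i j) ∧ (∀ i j, (∀ a, f a ≠ i) → N i j = (1 : Matrix κ κ A) i j) ∧
      (∀ i j, (∀ a, f a ≠ j) → N i j = (1 : Matrix κ κ A) i j) := by
  induction h using Submonoid.closure_induction with
  | mem M hM =>
    obtain ⟨i, j, c, hij, rfl⟩ := hM
    refine ⟨transvection (f i) (f j) c, transvection_mem_E (fun h => hij (f.injective h)) _, ?_, ?_, ?_⟩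
    · intro a b
      simp [transvection, Matrix.single_apply, Matrix.one_apply, f.injective.eq_iff]
    · intro a b ha
      have : f i ≠ a := ha i
      simp [transvection, this]
    · intro a b hb
      have : f j ≠ b := hb j
      simp [transvection, this]
  | one =>
    refine ⟨1, one_mem_E, ?_, fun _ _ _ => rfl, fun _ _ _ => rfl⟩
    intro i j
    simp [Matrix.one_apply, f.injective.eq_iff]
  | mul M N _ _ hM hN =>
    obtain ⟨M', hM', h1, h2, h3⟩ := hM
    obtain ⟨N', hN', h4, h5, h6⟩ := hN
    refine ⟨M' * N', E_mul hM' hN', ?_, ?_, ?_⟩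
    · intro i j
      rw [Matrix.mul_apply, Matrix.mul_apply]
      classical
      rw [← Finset.sum_subset (Finset.subset_univ (Finset.univ.map f)), Finset.sum_map]
      · exact Finset.sum_congr rfl fun k _ => by rw [h1, h4]
      · intro k _ hk
        have hk' : ∀ a, f a ≠ k := fun a ha => hk (Finset.mem_map.2 ⟨a, Finset.mem_univ _, ha⟩)
        rw [h3 _ _ hk', Matrix.one_apply_ne (hk' i), zero_mul]
    · intro i j hi
      rw [Matrix.mul_apply, Finset.sum_eq_single i]
      · rw [h2 _ _ hi, Matrix.one_apply_eq, one_mul, h5 _ _ hi]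
      · intro k _ hk
        rw [h2 _ _ hi, Matrix.one_apply_ne hk.symm, zero_mul]
      · intro h; exact absurd (Finset.mem_univ _) h
    · intro i j hj
      rw [Matrix.mul_apply, Finset.sum_eq_single j]
      · rw [h6 _ _ hj, Matrix.one_apply_eq, mul_one, h3 _ _ hj]
      · intro k _ hk
        rw [h6 _ _ hj, Matrix.one_apply_ne hk, mul_zero]
      · intro h; exact absurd (Finset.mem_univ _) h

end Basic

/-! ### Rows -/

section RowOps

variable {A B : Type*} [CommRing A] [CommRing B] {ι κ : Type*} [Fintype ι] [DecidableEq ι]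
  [Fintype κ] [DecidableEq κ]

theorem vecMul_one_add_vecMulVec (v x y : ι → A) :
    v ᵥ* (1 + vecMulVec x y) = v + (v ⬝ᵥ x) • y := by
  rw [Matrix.vecMul_add, Matrix.vecMul_one, Matrix.vecMul_vecMulVec]

theorem vecMul_transvection (v : ι → A) (i j : ι) (c : A) :
    v ᵥ* transvection i j c = Function.update v j (v j + v i * c) := by
  rw [transvection, Matrix.vecMul_add, Matrix.vecMul_one]
  ext k
  by_cases hk : k = j
  · subst hk
    simp [Matrix.vecMul, dotProduct, Matrix.single_apply]
  · simp [Matrix.vecMul, dotProduct, Function.update_of_ne hk, Ne.symm hk]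

/-- add a multiple of the entry `i` to the entry `j` -/
theorem EEq_update {i j : ι} (hij : i ≠ j) (v : ι → A) (c : A) :
    EEq v (Function.update v j (v j + v i * c)) :=
  ⟨transvection i j c, transvection_mem_E hij c, (vecMul_transvection v i j c).symm⟩

/-- general elementary operation: `x` and `y` have disjoint supports -/
theorem EEq_add (v x y : ι → A) (h : ∀ i, x i = 0 ∨ y i = 0) : EEq v (v + (v ⬝ᵥ x) • y) :=
  ⟨1 + vecMulVec x y, E_one_add_vecMulVec x y h, (vecMul_one_add_vecMulVec v x y).symm⟩

/-- add multiples of the entry `k` to the other entries -/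
theorem EEq_add_others (k : ι) (v c : ι → A) (hc : c k = 0) : EEq v (v + v k • c) := by
  have h := EEq_add v (Pi.single k 1) c (fun i => by
    by_cases hi : i = k
    · subst hi; exact Or.inr hc
    · exact Or.inl (Pi.single_eq_of_ne hi _))
  rwa [dotProduct_single, mul_one] at h

/-- add a combination of the other entries to the entry `k` -/
theorem EEq_add_one (k : ι) (v c : ι → A) (hc : c k = 0) :
    EEq v (Function.update v k (v k + v ⬝ᵥ c)) := by
  have h := EEq_add v c (Pi.single k 1) (fun i => by
    by_cases hi : i = k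
    · subst hi; exact Or.inl hc
    · exact Or.inr (Pi.single_eq_of_ne hi _))
  have h2 : v + (v ⬝ᵥ c) • Pi.single k (1 : A) = Function.update v k (v k + v ⬝ᵥ c) := by
    ext j
    by_cases hj : j = k
    · subst hj; simp
    · simp [Function.update_of_ne hj, Pi.single_eq_of_ne hj]
  rwa [h2] at h

/-- signed swap of two entries -/
theorem EEq_swap {i j : ι} (hij : i ≠ j) (v : ι → A) :
    EEq v (Function.update (Function.update v i (v j)) j (-v i)) := by
  refine (EEq_update hij.symm v 1).trans ?_
  refine (EEq_update hij _ (-1)).trans ?_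
  have h := EEq_update hij.symm
    (Function.update (Function.update v i (v i + v j * 1)) j
      (Function.update v i (v i + v j * 1) j + Function.update v i (v i + v j * 1) i * -1)) 1
  convert h using 1
  ext k
  by_cases hi : k = i
  · subst hi
    simp [Function.update_of_ne hij, Function.update_of_ne hij.symm]
  · by_cases hj : k = j
    · subst hj
      simp [Function.update_of_ne hij, Function.update_of_ne hij.symm]
    · simp [Function.update_of_ne hi, Function.update_of_ne hj]

/-- the matrix `diag (u, u⁻¹)` in the rows and columns `i`, `j` is elementary -/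
theorem E_diagonal {i j : ι} (hij : i ≠ j) (u u' : A) (hu : u * u' = 1) :
    Matrix.diagonal (Function.update (Function.update (1 : ι → A) i u) j u') ∈ E ι A := by
  have h : transvection i j u * transvection j i (-u') * transvection i j u *
      (transvection i j (-1) * transvection j i 1 * transvection i j (-1)) ∈ E ι A := by
    refine E_mul (E_mul (E_mul ?_ ?_) ?_) (E_mul (E_mul ?_ ?_) ?_)
    all_goals first | exact transvection_mem_E hij _ | exact transvection_mem_E hij.symm _
  convert h using 1
  refine Matrix.ext fun a b => ?_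
  have key : ∀ v : ι → A, v ᵥ* Matrix.diagonal (Function.update (Function.update (1 : ι → A) i u) j u') =
      v ᵥ* (transvection i j u * transvection j i (-u') * transvection i j u *
      (transvection i j (-1) * transvection j i 1 * transvection i j (-1))) := by
    intro v
    simp only [← Matrix.vecMul_vecMul, vecMul_transvection]
    ext k
    rw [Matrix.vecMul_diagonal]
    by_cases hi : k = i
    · subst hi
      simp only [Function.update_of_ne hij, Function.update_of_ne hij.symm, Function.update_self]
      linear_combination (v k * u + v j) * hu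
    · by_cases hj : k = j
      · subst hj
        simp only [Function.update_of_ne hij, Function.update_of_ne hij.symm, Function.update_self]
        linear_combination (-v i) * hu
      · simp only [Function.update_of_ne hi, Function.update_of_ne hj, Pi.one_apply, mul_one]
  have h3 := congrFun (key (Pi.single a 1)) b
  rw [Matrix.single_one_vecMul, Matrix.single_one_vecMul] at h3
  exact h3

theorem EEq_units {i j : ι} (hij : i ≠ j) (v : ι → A) (u u' : A) (hu : u * u' = 1) :
    EEq v (Function.update (Function.update v i (v i * u)) j (v j * u')) := by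
  refine ⟨_, E_diagonal hij u u' hu, ?_⟩
  ext k
  rw [Matrix.vecMul_diagonal]
  by_cases hj : k = j
  · subst hj; simp
  · by_cases hi : k = i
    · subst hi; simp [Function.update_of_ne hj]
    · simp [Function.update_of_ne hi, Function.update_of_ne hj]

theorem EEq_single_single (i j : ι) : EEq (Pi.single i (1 : A)) (Pi.single j 1) := by
  by_cases hij : i = j
  · subst hij; exact EEq.refl _
  · refine (EEq_update hij _ 1).trans ?_
    have h := EEq_update (Ne.symm hij) (Function.update (Pi.single i 1 : ι → A) j
      ((Pi.single i 1 : ι → A) j + (Pi.single i 1 : ι → A) i * 1)) (-1)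
    convert h using 1
    ext k
    by_cases hi : k = i
    · subst hi
      simp [Ne.symm hij, hij]
    · by_cases hj : k = j
      · subst hj
        simp [Ne.symm hij]
      · simp [hi, hj]

theorem EEq_single_of_one (i k : ι) (v : ι → A) (h : v k = 1) : EEq (Pi.single i 1) v := by
  have h1 := EEq_add_others k (Pi.single k (1 : A)) (fun j => if j = k then 0 else v j) (by simp)
  have h2 : (Pi.single k 1 : ι → A) + (Pi.single k 1 : ι → A) k •
      (fun j => if j = k then 0 else v j) = v := by
    ext j
    by_cases hj : j = k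
    · subst hj; simp [h]
    · simp [hj]
  rw [h2] at h1
  exact (EEq_single_single i k).trans h1

/-- if the entries different from `v k` are already unimodular then `v` is in the elementary orbit
of the unit row -/
theorem EEq_single_of_others (i k : ι) (v w : ι → A) (hw : w k = 0) (h : v ⬝ᵥ w = 1) :
    EEq (Pi.single i 1) v := by
  have h1 := EEq_add_one k v ((1 - v k) • w) (by simp [hw])
  rw [dotProduct_smul, h] at h1
  have h2 := EEq_single_of_one i k
    (Function.update v k (v k + (1 - v k) • 1)) (by simp)
  exact h2.trans h1.symm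

theorem EEq_single_of_isUnit (i k l : ι) (hkl : k ≠ l) (v : ι → A) (h : IsUnit (v k)) :
    EEq (Pi.single i 1) v := by
  obtain ⟨u, hu⟩ := h
  refine EEq_single_of_others i l v (Pi.single k (↑u⁻¹ : A)) (Pi.single_eq_of_ne hkl.symm _) ?_
  rw [dotProduct_single, ← hu, Units.mul_inv]

/-! ### maps, lifts, reindexing for rows -/

omit [DecidableEq ι] in
theorem ELEM_vecMul_map (f : A →+* B) (v : ι → A) (M : Matrix ι ι A) :
    (fun i => f ((v ᵥ* M) i)) = (fun i => f (v i)) ᵥ* M.map f := by
  ext j
  simp only [Matrix.vecMul, dotProduct, map_sum, map_mul, Matrix.map_apply]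

theorem EEq.map {v w : ι → A} (h : EEq v w) (f : A →+* B) :
    EEq (fun i => f (v i)) (fun i => f (w i)) := by
  obtain ⟨M, hM, rfl⟩ := h
  exact ⟨M.map f, E_map f hM, ELEM_vecMul_map f v M⟩

theorem GEq.map {v w : ι → A} (h : GEq v w) (f : A →+* B) :
    GEq (fun i => f (v i)) (fun i => f (w i)) := by
  obtain ⟨M, hM, rfl⟩ := h
  refine ⟨M.map f, ?_, ELEM_vecMul_map f v M⟩
  have : (M.map f).det = f M.det := by rw [RingHom.map_det]; rfl
  rw [this]
  exact hM.map f

/-- lifting of elementary equivalences along a surjection -/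
theorem EEq_lift (f : A →+* B) (hf : Function.Surjective f) {v : ι → A} {w : ι → B}
    (h : EEq (fun i => f (v i)) w) : ∃ w' : ι → A, EEq v w' ∧ ∀ i, f (w' i) = w i := by
  obtain ⟨M, hM, rfl⟩ := h
  obtain ⟨N, hN, rfl⟩ := E_lift f hf hM
  exact ⟨v ᵥ* N, ⟨N, hN, rfl⟩, fun i => congrFun (ELEM_vecMul_map f v N) i⟩

omit [DecidableEq ι] [DecidableEq κ] in
theorem ELEM_vecMul_equiv (e : κ ≃ ι) (v : ι → A) (M : Matrix ι ι A) :
    (v ∘ e) ᵥ* M.submatrix e e = (v ᵥ* M) ∘ e := by
  ext j
  simp only [Matrix.vecMul, dotProduct, Function.comp_apply, Matrix.submatrix_apply]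
  exact Fintype.sum_equiv e _ _ fun _ => rfl

theorem EEq.comp_equiv {v w : ι → A} (h : EEq v w) (e : κ ≃ ι) : EEq (v ∘ e) (w ∘ e) := by
  obtain ⟨M, hM, rfl⟩ := h
  exact ⟨M.submatrix e e, E_submatrix e hM, (ELEM_vecMul_equiv e v M).symm⟩

theorem GEq.comp_equiv {v w : ι → A} (h : GEq v w) (e : κ ≃ ι) : GEq (v ∘ e) (w ∘ e) := by
  obtain ⟨M, hM, rfl⟩ := h
  refine ⟨M.submatrix e e, ?_, (ELEM_vecMul_equiv e v M).symm⟩
  rwa [Matrix.det_submatrix_equiv_self]

theorem Comp.comp_equiv {v : ι → A} (h : Comp v) (e : κ ≃ ι) : Comp (v ∘ e) := by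
  obtain ⟨i, M, hM, rfl⟩ := h
  refine ⟨e.symm i, M.submatrix e e, ?_, ?_⟩
  · rwa [Matrix.det_submatrix_equiv_self]
  · ext j
    simp

omit [DecidableEq ι] [DecidableEq κ] in
theorem Um.comp_equiv {v : ι → A} (h : Um v) (e : κ ≃ ι) : Um (v ∘ e) := by
  obtain ⟨w, hw⟩ := h
  refine ⟨w ∘ e, ?_⟩
  rw [← hw]
  exact Fintype.sum_equiv e _ _ fun _ => rfl

theorem comp_comp_equiv {v : ι → A} (e : κ ≃ ι) : Comp (v ∘ e) ↔ Comp v := by
  refine ⟨fun h => ?_, fun h => h.comp_equiv e⟩
  have := h.comp_equiv e.symm
  rwa [Function.comp_assoc, Equiv.self_comp_symm, Function.comp_id] at this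

omit [DecidableEq ι] [DecidableEq κ] in
theorem um_comp_equiv {v : ι → A} (e : κ ≃ ι) : Um (v ∘ e) ↔ Um v := by
  refine ⟨fun h => ?_, fun h => h.comp_equiv e⟩
  have := h.comp_equiv e.symm
  rwa [Function.comp_assoc, Equiv.self_comp_symm, Function.comp_id] at this

/-- permutations of the entries -/
theorem GEq_perm (v : ι → A) (σ : Equiv.Perm ι) : GEq v (v ∘ σ) := by
  refine ⟨(1 : Matrix ι ι A).submatrix id σ, ?_, ?_⟩
  · rw [Matrix.det_permute', Matrix.det_one, mul_one]
    exact ((Equiv.Perm.sign σ).isUnit).map (Int.castRingHom A)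
  · ext j
    simp [Matrix.vecMul, dotProduct, Matrix.one_apply]

/-- multiplication of one entry by a unit -/
theorem GEq_mul_unit (v : ι → A) (k : ι) (u : A) (hu : IsUnit u) :
    GEq v (Function.update v k (v k * u)) := by
  refine ⟨Matrix.diagonal (Function.update 1 k u), ?_, ?_⟩
  · rw [Matrix.det_diagonal, Finset.prod_update_of_mem (Finset.mem_univ k)]
    simpa using hu
  · ext j
    rw [Matrix.vecMul_diagonal]
    by_cases hj : j = k
    · subst hj; simp
    · simp [Function.update_of_ne hj]

/-- a completable row of length at least two is a row of a matrix of determinant one -/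
theorem Comp.exists_det_eq_one {v : ι → A} (h : Comp v) (i j : ι) (hij : i ≠ j) :
    ∃ M : Matrix ι ι A, M.det = 1 ∧ M i = v := by
  obtain ⟨M, hM, hv⟩ := (comp_iff_gEq_single i).1 h
  obtain ⟨u, hu⟩ := hM
  refine ⟨M.updateRow j ((↑u⁻¹ : A) • M j), ?_, ?_⟩
  · rw [Matrix.det_updateRow_smul, Matrix.updateRow_eq_self, ← hu, Units.inv_mul]
  · rw [Matrix.updateRow_ne hij, hv, Matrix.single_one_vecMul]
    rfl

end RowOps

end GB
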