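import Mathlib
import Pool.Agent.helper65.GB.Elem

/-!
# Koszul lemma, normality of the elementary group (project gb, MP_7933bc)
-/

set_option autoImplicit false

open Matrix

namespace GB

section Koszul

variable {A B : Type*} [CommRing A] [CommRing B] {ι κ : Type*} [Fintype ι] [DecidableEq ι]
  [Fintype κ] [DecidableEq κ]

omit [Fintype ι] [DecidableEq ι] in
theorem KOS_vmv_mul [Fintype ι] (x y x' y' : ι → A) :
    vecMulVec x y * vecMulVec x' y' = (y ⬝ᵥ x') • vecMulVec x y' := by
  ext i j
  simp only [Matrix.mul_apply, vecMulVec_apply, Matrix.smul_apply, smul_eq_mul, dotProduct,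
    Finset.sum_mul]
  exact Finset.sum_congr rfl fun k _ => by ring

/-- `κ = c (q j e_i - q i e_j)` and there is a third index `k` -/
theorem KOS_two (q : ι → A) (i j k : ι) (hij : i ≠ j) (hik : i ≠ k) (hjk : j ≠ k) (c : A) :
    1 + vecMulVec q (Pi.single i (c * q j) - Pi.single j (c * q i)) ∈ E ι A := by
  set κ : ι → A := Pi.single i (c * q j) - Pi.single j (c * q i) with hκ
  set q2 : ι → A := Pi.single i (q i) + Pi.single j (q j) with hq2
  set q1 : ι → A := q - q2 with hq1
  have hκq2 : κ ⬝ᵥ q2 = 0 := by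
    rw [hκ, hq2, sub_dotProduct, single_dotProduct, single_dotProduct]
    simp [hij, hij.symm]
    ring
  have hκk : κ k = 0 := by simp [hκ, Ne.symm hik, Ne.symm hjk]
  have hq2k : q2 k = 0 := by simp [hq2, Ne.symm hik, Ne.symm hjk]
  have hκsupp : ∀ l, l ≠ i → l ≠ j → κ l = 0 := by
    intro l h1 h2; simp [hκ, h1, h2]
  have hq1i : q1 i = 0 := by simp [hq1, hq2, hij]
  have hq1j : q1 j = 0 := by simp [hq1, hq2, Ne.symm hij]
  have h1 : 1 + vecMulVec q1 κ ∈ E ι A := by
    refine E_one_add_vecMulVec _ _ fun l => ?_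
    by_cases hi : l = i
    · subst hi; exact Or.inl hq1i
    · by_cases hj : l = j
      · subst hj; exact Or.inl hq1j
      · exact Or.inr (hκsupp l hi hj)
  have h2 : 1 + vecMulVec q2 κ ∈ E ι A := by
    have ha : ∀ s : A, 1 + vecMulVec q2 (Pi.single k s) ∈ E ι A := by
      intro s
      refine E_one_add_vecMulVec _ _ fun l => ?_
      by_cases hl : l = k
      · subst hl; exact Or.inl hq2k
      · exact Or.inr (Pi.single_eq_of_ne hl _)
    have hb : ∀ s : A, 1 + vecMulVec (Pi.single k s) κ ∈ E ι A := by
      intro s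
      refine E_one_add_vecMulVec _ _ fun l => ?_
      by_cases hl : l = k
      · subst hl; exact Or.inr hκk
      · exact Or.inl (Pi.single_eq_of_ne hl _)
    have h : (1 + vecMulVec q2 (Pi.single k 1)) * (1 + vecMulVec (Pi.single k 1) κ) *
        ((1 + vecMulVec q2 (Pi.single k (-1))) * (1 + vecMulVec (Pi.single k (-1)) κ)) ∈ E ι A :=
      E_mul (E_mul (ha _) (hb _)) (E_mul (ha _) (hb _))
    have e1 : vecMulVec q2 (Pi.single k (-1 : A)) = - vecMulVec q2 (Pi.single k 1) := by
      ext a b
      simp only [vecMulVec_apply, Matrix.neg_apply, Pi.single_neg, Pi.neg_apply]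
      ring
    have e2 : vecMulVec (Pi.single k (-1 : A)) κ = - vecMulVec (Pi.single k 1) κ := by
      ext a b
      simp only [vecMulVec_apply, Matrix.neg_apply, Pi.single_neg, Pi.neg_apply]
      ring
    rw [e1, e2] at h
    set a := vecMulVec q2 (Pi.single k (1 : A)) with ha'
    set b := vecMulVec (Pi.single k (1 : A)) κ with hb'
    have haa : a * a = 0 := by
      rw [ha', KOS_vmv_mul, single_dotProduct, hq2k]; simp
    have hbb : b * b = 0 := by
      rw [hb', KOS_vmv_mul, dotProduct_single, hκk]; simp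
    have hba : b * a = 0 := by
      rw [ha', hb', KOS_vmv_mul, hκq2]; simp
    have hab : a * b = vecMulVec q2 κ := by
      rw [ha', hb', KOS_vmv_mul, single_dotProduct]; simp
    have hfin : (1 + a) * (1 + b) * ((1 + -a) * (1 + -b)) = 1 + vecMulVec q2 κ := by
      rw [← hab]
      have : (1 + a) * (1 + b) * ((1 + -a) * (1 + -b)) =
          1 + a * b - a * a - b * a - b * b + b * a * b + a * a * b - a * (b * a) - a * (b * b)
            + a * (b * a) * b + b * a * 0 := by
        noncomm_ring
      rw [this, haa, hbb, hba]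
      simp
    rwa [hfin] at h
  have h3 : 1 + vecMulVec q κ = (1 + vecMulVec q1 κ) * (1 + vecMulVec q2 κ) := by
    have e : vecMulVec q κ = vecMulVec q1 κ + vecMulVec q2 κ := by
      ext a b
      simp only [vecMulVec_apply, Matrix.add_apply, hq1, Pi.sub_apply]
      ring
    rw [e, add_mul, mul_add, mul_add, KOS_vmv_mul, hκq2]
    simp only [zero_smul, one_mul, mul_one]
    abel
  rw [h3]
  exact E_mul h1 h2

/-- Koszul lemma: `1 + q η` is elementary if `η ⬝ q = 0` and the column `q` is unimodular -/
theorem koszul (hcard : 3 ≤ Fintype.card ι) (q η : ι → A) (hq : Um q) (hη : η ⬝ᵥ q = 0) :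
    1 + vecMulVec q η ∈ E ι A := by
  obtain ⟨p, hp⟩ := hq
  -- the pieces
  let f : ι × ι → (ι → A) := fun s => Pi.single s.1 (η s.1 * p s.2 * q s.2) - Pi.single s.2 (η s.1 * p s.2 * q s.1)
  have hf0 : ∀ s, f s ⬝ᵥ q = 0 := by
    intro s
    simp only [f, sub_dotProduct, single_dotProduct]
    ring
  have hfE : ∀ s, 1 + vecMulVec q (f s) ∈ E ι A := by
    intro s
    by_cases hs : s.1 = s.2
    · have : f s = 0 := by
        simp only [f, hs]
        rw [sub_self]
      rw [this]
      simp
    · obtain ⟨k, hk1, hk2⟩ : ∃ k, k ≠ s.1 ∧ k ≠ s.2 := by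
        by_contra hcon
        push Not at hcon
        have hsub : (Finset.univ : Finset ι) ⊆ {s.1, s.2} := by
          intro k _
          rw [Finset.mem_insert, Finset.mem_singleton]
          by_cases h : k = s.1
          · exact Or.inl h
          · exact Or.inr (hcon k h)
        have := Finset.card_le_card hsub
        rw [Finset.card_univ] at this
        have h2 := Finset.card_le_two (a := s.1) (b := s.2)
        omega
      exact KOS_two q s.1 s.2 k hs (Ne.symm hk1) (Ne.symm hk2) (η s.1 * p s.2)
  have key : ∀ T : Finset (ι × ι), 1 + vecMulVec q (∑ s ∈ T, f s) ∈ E ι A := by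
    intro T
    classical
    induction T using Finset.induction_on with
    | empty => simp
    | insert s T hs ih =>
      rw [Finset.sum_insert hs]
      have : 1 + vecMulVec q (f s + ∑ x ∈ T, f x) =
          (1 + vecMulVec q (f s)) * (1 + vecMulVec q (∑ x ∈ T, f x)) := by
        rw [add_mul, mul_add, mul_add, KOS_vmv_mul, hf0, vecMulVec_add]
        simp only [zero_smul, one_mul, mul_one]
        abel
      rw [this]
      exact E_mul (hfE s) ih
  have h := key Finset.univ
  have hsum : ∑ s : ι × ι, f s = η := by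
    rw [Fintype.sum_prod_type]
    ext l
    simp only [f, Finset.sum_apply, Pi.sub_apply, Finset.sum_sub_distrib, Pi.single_apply]
    simp only [Finset.sum_ite_eq, Finset.mem_univ, if_true]
    rw [Finset.sum_comm]
    simp only [Finset.sum_ite_eq, Finset.mem_univ, if_true]
    have e1 : ∑ x, η l * p x * q x = η l := by
      have : ∑ x, η l * p x * q x = η l * (q ⬝ᵥ p) := by
        rw [dotProduct, Finset.mul_sum]
        exact Finset.sum_congr rfl fun x _ => by ring
      rw [this, hp, mul_one]
    have e2 : ∑ x, η x * p l * q x = 0 := by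
      have : ∑ x, η x * p l * q x = (η ⬝ᵥ q) * p l := by
        rw [dotProduct, Finset.sum_mul]
        exact Finset.sum_congr rfl fun x _ => by ring
      rw [this, hη, zero_mul]
    rw [e1, e2, sub_zero]
  rwa [hsum] at h

/-- transposed Koszul lemma: `1 + q η` is elementary if `η ⬝ q = 0` and the row `η` is unimodular -/
theorem koszul' (hcard : 3 ≤ Fintype.card ι) (q η : ι → A) (hη1 : Um η) (hη : η ⬝ᵥ q = 0) :
    1 + vecMulVec q η ∈ E ι A := by
  have h := E_transpose (koszul hcard η q hη1 (by rw [dotProduct_comm]; exact hη))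
  have h2 : (1 + vecMulVec η q)ᵀ = 1 + vecMulVec q η := by
    rw [Matrix.transpose_add, Matrix.transpose_one, Matrix.transpose_vecMulVec]
  rwa [h2] at h

/-- the elementary group is normal -/
theorem E_conj (hcard : 3 ≤ Fintype.card ι) (g g' : Matrix ι ι A) (hg : g * g' = 1)
    {M : Matrix ι ι A} (hM : M ∈ E ι A) : g * M * g' ∈ E ι A := by
  have hg' : g' * g = 1 := mul_eq_one_comm.1 hg
  induction hM using Submonoid.closure_induction with
  | mem M hM =>
    obtain ⟨i, j, c, hij, rfl⟩ := hM
    have h1 : g * transvection i j c * g' = 1 + vecMulVec (fun a => g a i) (fun b => c * g' j b) := by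
      rw [transvection, mul_add, mul_one, add_mul, hg]
      congr 1
      ext a b
      rw [vecMulVec_apply, Matrix.mul_apply, Finset.sum_eq_single j]
      · rw [Matrix.mul_apply, Finset.sum_eq_single i]
        · simp only [Matrix.single_apply_same]
          ring
        · intro x _ hx
          rw [Matrix.single_apply_of_row_ne (Ne.symm hx), mul_zero]
        · intro h; exact absurd (Finset.mem_univ _) h
      · intro x _ hx
        rw [Matrix.mul_apply, Finset.sum_eq_zero, zero_mul]
        intro y _
        rw [Matrix.single_apply_of_col_ne _ _ (Ne.symm hx), mul_zero]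
      · intro h; exact absurd (Finset.mem_univ _) h
    rw [h1]
    refine koszul hcard _ _ ⟨fun a => g' i a, ?_⟩ ?_
    · have := congrFun (congrFun hg' i) i
      rw [Matrix.mul_apply, Matrix.one_apply_eq] at this
      rw [dotProduct, ← this]
      exact Finset.sum_congr rfl fun x _ => mul_comm _ _
    · have := congrFun (congrFun hg' j) i
      rw [Matrix.mul_apply, Matrix.one_apply_ne (Ne.symm hij)] at this
      have h2 : (fun b => c * g' j b) ⬝ᵥ (fun a => g a i) = c * ∑ x, g' j x * g x i := by
        rw [dotProduct, Finset.mul_sum]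
        exact Finset.sum_congr rfl fun x _ => by ring
      rw [h2, this, mul_zero]
  | one => rw [mul_one, hg]; exact one_mem_E
  | mul M N _ _ hM hN =>
    have : g * (M * N) * g' = (g * M * g') * (g * N * g') := by
      calc g * (M * N) * g' = g * M * 1 * N * g' := by simp only [mul_one, Matrix.mul_assoc]
        _ = g * M * (g' * g) * N * g' := by rw [hg']
        _ = _ := by simp only [Matrix.mul_assoc]
    rw [this]
    exact E_mul hM hN

/-- `v ~ v + κ` if `κ` is orthogonal to a dual `w` of `v` -/
theorem EEq_koszul (hcard : 3 ≤ Fintype.card ι) (v w κ : ι → A) (hw : v ⬝ᵥ w = 1)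
    (hκ : κ ⬝ᵥ w = 0) : EEq v (v + κ) := by
  refine ⟨1 + vecMulVec w κ, koszul hcard w κ ⟨v, by rw [dotProduct_comm]; exact hw⟩ hκ, ?_⟩
  rw [vecMul_one_add_vecMulVec, hw, one_smul]

/-- two rows with a common dual are in the same elementary orbit -/
theorem EEq_of_common_dual (hcard : 3 ≤ Fintype.card ι) (v v' w : ι → A) (hw : v ⬝ᵥ w = 1)
    (hw' : v' ⬝ᵥ w = 1) : EEq v v' := by
  have h := EEq_koszul hcard v w (v' - v) hw (by rw [sub_dotProduct, hw, hw', sub_self])
  rwa [add_sub_cancel] at h

/-- elementary equivalence is preserved by invertible matrices -/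
theorem EEq.vecMul (hcard : 3 ≤ Fintype.card ι) {v w : ι → A} (h : EEq v w)
    {g : Matrix ι ι A} (hg : IsUnit g.det) : EEq (v ᵥ* g) (w ᵥ* g) := by
  obtain ⟨M, hM, rfl⟩ := h
  refine ⟨g⁻¹ * M * g, E_conj hcard g⁻¹ g (Matrix.nonsing_inv_mul _ hg) hM, ?_⟩
  rw [Matrix.vecMul_vecMul, Matrix.vecMul_vecMul, ← Matrix.mul_assoc, ← Matrix.mul_assoc,
    Matrix.mul_nonsing_inv _ hg, Matrix.one_mul]

end Koszul

/-! ### Stable range -/

section SR

variable {A : Type*} [CommRing A] {ι : Type*} [Fintype ι] [DecidableEq ι]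

/-- stable range condition: a unimodular row `(x, s)`, `x` of length `m`, can be shortened -/
def SR (A : Type*) [CommRing A] (m : ℕ) : Prop :=
  ∀ (x : Fin m → A) (s : A), (∃ (y : Fin m → A) (t : A), x ⬝ᵥ y + s * t = 1) →
    ∃ h : Fin m → A, Um (fun i => x i + h i * s)

theorem SR_succ {m : ℕ} (hm : SR A m) : SR A (m + 1) := by
  rintro x s ⟨y, t, h⟩
  rw [dotProduct, Fin.sum_univ_castSucc] at h
  obtain ⟨k, z, hz⟩ := hm (fun i => x i.castSucc) (x (Fin.last m) * y (Fin.last m) + s * t)
    ⟨fun i => y i.castSucc, 1, by rw [dotProduct]; linear_combination h⟩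
  refine ⟨Fin.snoc (fun i => k i * t) 0, Fin.snoc z (y (Fin.last m) * ∑ i, k i * z i), ?_⟩
  rw [dotProduct, Fin.sum_univ_castSucc]
  simp only [Fin.snoc_castSucc, Fin.snoc_last]
  rw [dotProduct] at hz
  rw [← hz, zero_mul, add_zero, ← mul_assoc, Finset.mul_sum, ← Finset.sum_add_distrib]
  exact Finset.sum_congr rfl fun i _ => by ring

theorem SR_mono {m n : ℕ} (hmn : m ≤ n) (hm : SR A m) : SR A n := by
  induction n, hmn using Nat.le_induction with
  | base => exact hm
  | succ n _ ih => exact SR_succ ih

/-- transitivity of the elementary group in the stable range -/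
theorem EEq_single_of_SR {m : ℕ} (hSR : SR A m) (hcard : m + 1 ≤ Fintype.card ι) (v : ι → A)
    (hv : Um v) (i : ι) : EEq (Pi.single i 1) v := by
  obtain ⟨n, hn⟩ : ∃ n, Fintype.card ι = n + 1 := ⟨Fintype.card ι - 1, by omega⟩
  have hSRn : SR A n := SR_mono (by omega) hSR
  have e : Option (Fin n) ≃ ι := Fintype.equivOfCardEq (by simp [hn])
  obtain ⟨w, hw⟩ := hv
  have hw2 : v (e none) * w (e none) + ∑ j : Fin n, v (e (some j)) * w (e (some j)) = 1 := by
    rw [← hw, dotProduct, ← e.sum_comp, Fintype.sum_option]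
  obtain ⟨h, z, hz⟩ := hSRn (fun j => v (e (some j))) (v (e none))
    ⟨fun j => w (e (some j)), w (e none), by rw [dotProduct]; linear_combination hw2⟩
  have h1 := EEq_add_others (e none) v (fun j => (e.symm j).elim 0 h) (by simp)
  refine EEq.trans ?_ h1.symm
  refine EEq_single_of_others i (e none) _ (fun j => (e.symm j).elim 0 z) (by simp) ?_
  rw [← hz, dotProduct, ← e.sum_comp, Fintype.sum_option, dotProduct]
  simp only [Equiv.symm_apply_apply, Option.elim, mul_zero, zero_add, Pi.add_apply, Pi.smul_apply,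
    smul_eq_mul]
  exact Finset.sum_congr rfl fun j _ => by ring

end SR

end GB
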