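import Mathlib
import Pool.Agent.helper65.GB.Koszul

/-!
# General position and the stable range of Noetherian rings (project gb, MP_7933bc)
-/

set_option autoImplicit false

open Matrix

namespace GB

section GP

/-- coset prime avoidance: `x + f h * s` is in none of finitely many primes which do not contain `s`
(`h` may be chosen in `R` if the contractions to `R` are distinct) -/
theorem GP_avoid {R B : Type*} [CommRing R] [CommRing B] (f : R →+* B) (x s : B)
    (T : Finset (PrimeSpectrum B)) (hT : ∀ P ∈ T, s ∉ P.asIdeal)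
    (hinj : Set.InjOn (PrimeSpectrum.comap f) T) : ∃ h : R, ∀ P ∈ T, x + f h * s ∉ P.asIdeal := by
  classical
  induction T using Finset.strongInduction with
  | H T ih =>
    rcases T.eq_empty_or_nonempty with rfl | hne
    · exact ⟨0, fun P hP => absurd hP (Finset.notMem_empty _)⟩
    · obtain ⟨P, hPT, hPmin⟩ := T.exists_minimalFor (PrimeSpectrum.comap f) hne
      obtain ⟨h', hh'⟩ := ih (T.erase P) (Finset.erase_ssubset hPT)
        (fun Q hQ => hT Q (Finset.mem_of_mem_erase hQ))
        (hinj.mono (fun Q hQ => Finset.mem_of_mem_erase hQ))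
      by_cases hxP : x + f h' * s ∈ P.asIdeal
      · have hnot : ¬ (T.erase P).inf (fun Q => (PrimeSpectrum.comap f Q).asIdeal) ≤
            (PrimeSpectrum.comap f P).asIdeal := by
          intro hle
          obtain ⟨Q, hQ, hQP⟩ := (Ideal.IsPrime.inf_le' (PrimeSpectrum.comap f P).isPrime).1 hle
          have h1 : PrimeSpectrum.comap f Q ≤ PrimeSpectrum.comap f P := hQP
          have h2 := hPmin (Finset.mem_of_mem_erase hQ) h1
          have h3 := hinj (Finset.mem_of_mem_erase hQ) hPT (le_antisymm h1 h2)
          exact (Finset.ne_of_mem_erase hQ) h3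
        obtain ⟨t, ht, htP⟩ := SetLike.not_le_iff_exists.1 hnot
        rw [Submodule.mem_finsetInf] at ht
        refine ⟨h' + t, fun Q hQ => ?_⟩
        by_cases hQP : Q = P
        · subst hQP
          intro hmem
          have h1 : f t * s ∈ Q.asIdeal := by
            have := Ideal.sub_mem _ hmem hxP
            have e : x + f (h' + t) * s - (x + f h' * s) = f t * s := by
              rw [map_add]; ring
            rwa [e] at this
          rcases Q.isPrime.mem_or_mem h1 with h2 | h2
          · exact htP h2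
          · exact hT Q hQ h2
        · intro hmem
          have hQ' : Q ∈ T.erase P := Finset.mem_erase.2 ⟨hQP, hQ⟩
          have h1 : f t ∈ Q.asIdeal := ht Q hQ'
          refine hh' Q hQ' ?_
          have := Ideal.sub_mem _ hmem (Ideal.mul_mem_right s _ h1)
          have e : x + f (h' + t) * s - f t * s = x + f h' * s := by
            rw [map_add]; ring
          rwa [e] at this
      · refine ⟨h', fun Q hQ => ?_⟩
        by_cases hQP : Q = P
        · subst hQP; exact hxP
        · exact hh' Q (Finset.mem_erase.2 ⟨hQP, hQ⟩)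

/-- general position: every prime which contains all `x i + f (h i) * s` and not `s` has height
at least `q` -/
theorem GP_height {R B : Type*} [CommRing R] [CommRing B] [IsNoetherianRing B] (f : R →+* B)
    (hf : Function.Injective (PrimeSpectrum.comap f)) (s : B) :
    ∀ (q : ℕ) (x : Fin q → B), ∃ h : Fin q → R, ∀ P : Ideal B, P.IsPrime →
      (∀ i, x i + f (h i) * s ∈ P) → s ∉ P → (q : ℕ∞) ≤ P.height := by
  intro q
  induction q with
  | zero =>
    intro x
    exact ⟨fun _ => 0, fun P _ _ _ => by simp⟩
  | succ q ih =>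
    intro x
    obtain ⟨h, hh⟩ := ih (fun i => x i.castSucc)
    set I : Ideal B := Ideal.span (Set.range fun i : Fin q => x i.castSucc + f (h i) * s) with hI
    have hfin : (I.minimalPrimes).Finite := Ideal.finite_minimalPrimes_of_isNoetherianRing B I
    have hfin2 : {P : PrimeSpectrum B | P.asIdeal ∈ I.minimalPrimes ∧ s ∉ P.asIdeal}.Finite := by
      refine Set.Finite.subset (Set.Finite.preimage (f := PrimeSpectrum.asIdeal) ?_ hfin)
        (fun P hP => hP.1)
      exact fun P _ Q _ h => PrimeSpectrum.ext h
    obtain ⟨t, ht⟩ := GP_avoid f (x (Fin.last q)) s hfin2.toFinset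
      (fun P hP => (hfin2.mem_toFinset.1 hP).2) (hf.injOn)
    refine ⟨Fin.snoc h t, fun Q hQ hmem hsQ => ?_⟩
    have hIQ : I ≤ Q := by
      rw [hI, Ideal.span_le]
      rintro _ ⟨i, rfl⟩
      have := hmem i.castSucc
      show x i.castSucc + f (h i) * s ∈ Q
      simpa only [Fin.snoc_castSucc] using this
    obtain ⟨p, hp, hpQ⟩ := Ideal.exists_minimalPrimes_le hIQ
    have hpp : p.IsPrime := hp.1.1
    have hsp : s ∉ p := fun h => hsQ (hpQ h)
    have hnot : x (Fin.last q) + f t * s ∉ p :=
      ht ⟨p, hpp⟩ (hfin2.mem_toFinset.2 ⟨hp, hsp⟩)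
    have hlast : x (Fin.last q) + f t * s ∈ Q := by
      have := hmem (Fin.last q)
      simpa only [Fin.snoc_last] using this
    have hlt : p < Q := lt_of_le_of_ne hpQ (fun h => hnot (h ▸ hlast))
    have h1 := Ideal.height_add_one_le_of_lt_of_isPrime hlt
    have h2 : (q : ℕ∞) ≤ p.height := by
      refine hh p hpp (fun i => ?_) hsp
      exact hp.1.2 (Ideal.subset_span ⟨i, rfl⟩)
    calc ((q + 1 : ℕ) : ℕ∞) = (q : ℕ∞) + 1 := by push_cast; rfl
      _ ≤ p.height + 1 := by gcongr
      _ ≤ Q.height := h1

/-- general position, any finite index set -/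
theorem GP_height' {R B : Type*} [CommRing R] [CommRing B] [IsNoetherianRing B] (f : R →+* B)
    (hf : Function.Injective (PrimeSpectrum.comap f)) {κ : Type*} [Fintype κ] (x : κ → B) (s : B) :
    ∃ h : κ → R, ∀ P : Ideal B, P.IsPrime →
      (∀ i, x i + f (h i) * s ∈ P) → s ∉ P → (Fintype.card κ : ℕ∞) ≤ P.height := by
  have e := Fintype.equivFin κ
  obtain ⟨h, hh⟩ := GP_height f hf s (Fintype.card κ) (fun j => x (e.symm j))
  refine ⟨fun i => h (e i), fun P hP hmem hs => hh P hP (fun j => ?_) hs⟩
  simpa using hmem (e.symm j)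

/-- general position in a Noetherian ring -/
theorem GP {R : Type*} [CommRing R] [IsNoetherianRing R] {κ : Type*} [Fintype κ] (x : κ → R)
    (s : R) : ∃ h : κ → R, ∀ p : Ideal R, p.IsPrime → (∀ i, x i + h i * s ∈ p) → s ∉ p →
      (Fintype.card κ : ℕ∞) ≤ p.height := by
  have hid : Function.Injective (PrimeSpectrum.comap (RingHom.id R)) := by
    intro P Q h
    simpa using h
  exact GP_height' (RingHom.id R) hid x s

/-- shortening of unimodular rows, with `h` from `R` -/
theorem GP_um {R B : Type*} [CommRing R] [CommRing B] [IsNoetherianRing B] (f : R →+* B)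
    (hf : Function.Injective (PrimeSpectrum.comap f)) {m : ℕ} (hdim : ringKrullDim B < m)
    (x : Fin m → B) (s : B) (hu : ∃ (y : Fin m → B) (t : B), x ⬝ᵥ y + s * t = 1) :
    ∃ h : Fin m → R, Um (fun i => x i + f (h i) * s) := by
  obtain ⟨h, hh⟩ := GP_height f hf s m x
  refine ⟨h, ?_⟩
  rw [um_iff_span]
  by_contra hne
  obtain ⟨P, hP, hle⟩ := Ideal.exists_le_maximal _ hne
  have hPp := hP.isPrime
  have hmem : ∀ i, x i + f (h i) * s ∈ P := fun i => hle (Ideal.subset_span ⟨i, rfl⟩)
  by_cases hs : s ∈ P
  · obtain ⟨y, t, hyt⟩ := hu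
    have hx : ∀ i, x i ∈ P := by
      intro i
      have := Ideal.sub_mem _ (hmem i) (Ideal.mul_mem_left _ (f (h i)) hs)
      rwa [add_sub_cancel_right] at this
    apply hPp.ne_top
    rw [Ideal.eq_top_iff_one, ← hyt]
    refine Ideal.add_mem _ (Ideal.sum_mem _ fun i _ => Ideal.mul_mem_right _ _ (hx i))
      (Ideal.mul_mem_right _ _ hs)
  · have h1 := hh P hPp hmem hs
    have h2 : ((P.height : ℕ∞) : WithBot ℕ∞) ≤ ringKrullDim B :=
      Ideal.height_le_ringKrullDim_of_isPrime
    have h3 : ((m : ℕ∞) : WithBot ℕ∞) ≤ (P.height : WithBot ℕ∞) := WithBot.coe_le_coe.2 h1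
    exact absurd (lt_of_le_of_lt (h3.trans h2) hdim) (lt_irrefl _)

/-- stable range of a Noetherian ring of finite dimension -/
theorem SR_of_dim {B : Type*} [CommRing B] [IsNoetherianRing B] {m : ℕ}
    (hdim : ringKrullDim B < m) : SR B m := by
  intro x s hu
  have hid : Function.Injective (PrimeSpectrum.comap (RingHom.id B)) := by
    intro P Q h
    simpa using h
  exact GP_um (RingHom.id B) hid hdim x s hu

/-- Bass: unimodular rows of length at least `dim + 2` are in one elementary orbit -/
theorem EEq_single_of_dim {B : Type*} [CommRing B] [IsNoetherianRing B] {ι : Type*} [Fintype ι]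
    [DecidableEq ι] {m : ℕ} (hdim : ringKrullDim B < m) (hcard : m + 1 ≤ Fintype.card ι)
    (v : ι → B) (hv : Um v) (i : ι) : EEq (Pi.single i 1) v :=
  EEq_single_of_SR (SR_of_dim hdim) hcard v hv i

/-! ### Localizations -/

theorem GP_height_localization {R B : Type*} [CommRing R] [CommRing B] [Algebra R B]
    (S : Submonoid R) [IsLocalization S B] [IsNoetherianRing R] (s : B) (q : ℕ) (x : Fin q → B) :
    ∃ h : Fin q → R, ∀ P : Ideal B, P.IsPrime →
      (∀ i, x i + algebraMap R B (h i) * s ∈ P) → s ∉ P → (q : ℕ∞) ≤ P.height :=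
  haveI : IsNoetherianRing B := IsLocalization.isNoetherianRing S B inferInstance
  GP_height (algebraMap R B) (PrimeSpectrum.localization_comap_injective B S) s q x

theorem GP_um_localization {R B : Type*} [CommRing R] [CommRing B] [Algebra R B]
    (S : Submonoid R) [IsLocalization S B] [IsNoetherianRing R] {m : ℕ}
    (hdim : ringKrullDim B < m) (x : Fin m → B) (s : B)
    (hu : ∃ (y : Fin m → B) (t : B), x ⬝ᵥ y + s * t = 1) :
    ∃ h : Fin m → R, Um (fun i => x i + algebraMap R B (h i) * s) :=
  haveI : IsNoetherianRing B := IsLocalization.isNoetherianRing S B inferInstance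
  GP_um (algebraMap R B) (PrimeSpectrum.localization_comap_injective B S) hdim x s hu

end GP

end GB
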