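import Mathlib
import Pool.Agent.helper65.GB.Koszul

/-!
# Injective stability of `K_1` (K1 = T2 of the note, project gb, MP_7933bc)

`card ι = n + 1 ≥ 3`, `SR A n`, `g ⊕ 1` elementary of size `n + 2`; then `g` is elementary.
-/

set_option autoImplicit false

open Matrix

namespace GB

section K1

variable {A : Type*} [CommRing A] {ι : Type*} [Fintype ι] [DecidableEq ι]

/-- block matrices of size `ι ⊕ Unit` -/
def K1_bl (α : Matrix ι ι A) (x y : ι → A) (d : A) : Matrix (ι ⊕ Unit) (ι ⊕ Unit) A :=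
  fromBlocks α (Matrix.of fun i _ => x i) (Matrix.of fun _ j => y j) (Matrix.of fun _ _ => d)

omit [DecidableEq ι] in
theorem K1_bl_mul (α α' : Matrix ι ι A) (x y x' y' : ι → A) (d d' : A) :
    K1_bl α x y d * K1_bl α' x' y' d' =
      K1_bl (α * α' + vecMulVec x y') (α *ᵥ x' + d' • x) (y ᵥ* α' + d • y')
        (y ⬝ᵥ x' + d * d') := by
  unfold K1_bl
  rw [fromBlocks_multiply]
  congr 1
  · ext i j
    simp [Matrix.mul_apply, vecMulVec_apply]
  · ext i j
    simp [Matrix.mul_apply, Matrix.mulVec, dotProduct, mul_comm]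
  · ext i j
    simp [Matrix.mul_apply, Matrix.vecMul, dotProduct]
  · ext i j
    simp [Matrix.mul_apply, dotProduct]

omit [Fintype ι] in
theorem K1_bl_one : (1 : Matrix (ι ⊕ Unit) (ι ⊕ Unit) A) = K1_bl 1 0 0 1 := by
  unfold K1_bl
  rw [← fromBlocks_one]
  rfl

omit [CommRing A] [Fintype ι] [DecidableEq ι] in
theorem K1_bl_inj {α α' : Matrix ι ι A} {x y x' y' : ι → A} {d d' : A}
    (h : K1_bl α x y d = K1_bl α' x' y' d') : α = α' ∧ x = x' ∧ y = y' ∧ d = d' := by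
  unfold K1_bl at h
  obtain ⟨h1, h2, h3, h4⟩ := Matrix.fromBlocks_inj.1 h
  refine ⟨h1, ?_, ?_, ?_⟩
  · ext i; exact congrFun (congrFun h2 i) ()
  · ext i; exact congrFun (congrFun h3 ()) i
  · exact congrFun (congrFun h4 ()) ()

omit [DecidableEq ι] in
theorem K1_vmv_mulVec (x y z : ι → A) : vecMulVec x y *ᵥ z = (y ⬝ᵥ z) • x := by
  ext i
  simp only [Matrix.mulVec, vecMulVec_apply, dotProduct, Pi.smul_apply, smul_eq_mul, Finset.sum_mul]
  exact Finset.sum_congr rfl fun j _ => by ring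

omit [DecidableEq ι] in
theorem K1_vecMul_vmv (x y z : ι → A) : z ᵥ* vecMulVec x y = (z ⬝ᵥ x) • y := by
  ext i
  simp only [Matrix.vecMul, vecMulVec_apply, dotProduct, Pi.smul_apply, smul_eq_mul, Finset.sum_mul]
  exact Finset.sum_congr rfl fun j _ => by ring

/-- the relation `M ∈ P₀ N` -/
def K1_R (M N : Matrix (ι ⊕ Unit) (ι ⊕ Unit) A) : Prop :=
  ∃ α ∈ E ι A, ∃ x : ι → A, M = K1_bl α x 0 1 * N

theorem K1_R.refl (M : Matrix (ι ⊕ Unit) (ι ⊕ Unit) A) : K1_R M M :=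
  ⟨1, one_mem_E, 0, by rw [← K1_bl_one, one_mul]⟩

theorem K1_R.trans {M N L : Matrix (ι ⊕ Unit) (ι ⊕ Unit) A} (h : K1_R M N) (h' : K1_R N L) :
    K1_R M L := by
  obtain ⟨α, hα, x, rfl⟩ := h
  obtain ⟨β, hβ, y, rfl⟩ := h'
  refine ⟨α * β, E_mul hα hβ, α *ᵥ y + x, ?_⟩
  rw [← Matrix.mul_assoc, K1_bl_mul]
  congr 1
  simp [vecMulVec_zero]

theorem K1_R.symm {M N : Matrix (ι ⊕ Unit) (ι ⊕ Unit) A} (h : K1_R M N) : K1_R N M := by
  obtain ⟨α, hα, x, rfl⟩ := h
  obtain ⟨β, hβ, h1, h2⟩ := exists_inv_of_mem_E hα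
  refine ⟨β, hβ, -(β *ᵥ x), ?_⟩
  rw [← Matrix.mul_assoc, K1_bl_mul, h2]
  have : K1_bl (1 + vecMulVec (-(β *ᵥ x)) 0) (β *ᵥ x + (1 : A) • -(β *ᵥ x)) (0 ᵥ* α + (1 : A) • 0)
      (0 ⬝ᵥ x + 1 * 1) = (1 : Matrix (ι ⊕ Unit) (ι ⊕ Unit) A) := by
    rw [K1_bl_one]
    congr 1
    · simp [vecMulVec_zero]
    · simp
    · simp
    · simp
  rw [this, Matrix.one_mul]

theorem K1_R.mul {M N : Matrix (ι ⊕ Unit) (ι ⊕ Unit) A} (h : K1_R M N)
    (g : Matrix (ι ⊕ Unit) (ι ⊕ Unit) A) : K1_R (M * g) (N * g) := by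
  obtain ⟨α, hα, x, rfl⟩ := h
  exact ⟨α, hα, x, by rw [Matrix.mul_assoc]⟩

theorem K1_R_of {α : Matrix ι ι A} (hα : α ∈ E ι A) (x : ι → A)
    {M N : Matrix (ι ⊕ Unit) (ι ⊕ Unit) A} (h : M = K1_bl α x 0 1 * N) : K1_R M N :=
  ⟨α, hα, x, h⟩

/-- `u b * c y` -/
def K1_G (b y : ι → A) : Matrix (ι ⊕ Unit) (ι ⊕ Unit) A := K1_bl 1 y b (b ⬝ᵥ y + 1)

/-- `u t` -/
def K1_u (t : ι → A) : Matrix (ι ⊕ Unit) (ι ⊕ Unit) A := K1_bl 1 0 t 1

/-- `c x` -/
def K1_c (x : ι → A) : Matrix (ι ⊕ Unit) (ι ⊕ Unit) A := K1_bl 1 x 0 1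

theorem K1_u_mul (s t : ι → A) : K1_u s * K1_u t = K1_u (s + t) := by
  unfold K1_u
  rw [K1_bl_mul]
  congr 1 <;> simp [zero_vecMulVec]

theorem K1_G_mul_c (b y x : ι → A) : K1_G b y * K1_c x = K1_G b (y + x) := by
  unfold K1_G K1_c
  rw [K1_bl_mul]
  congr 1
  · simp [vecMulVec_zero]
  · simp [add_comm]
  · simp
  · simp [dotProduct_add]; ring

theorem K1_G_mul_u (b y t : ι → A) :
    K1_G b y * K1_u t = K1_bl (1 + vecMulVec y t) y (b + (b ⬝ᵥ y + 1) • t) (b ⬝ᵥ y + 1) := by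
  unfold K1_G K1_u
  rw [K1_bl_mul]
  congr 1 <;> simp

/-- step 1 -/
theorem K1_step1 (hcard : 3 ≤ Fintype.card ι) (b y y' : ι → A) (hb : Um b)
    (h : b ⬝ᵥ y = b ⬝ᵥ y') : K1_R (K1_G b y) (K1_G b y') := by
  have hk : b ⬝ᵥ (y' - y) = 0 := by rw [dotProduct_sub, h, sub_self]
  refine K1_R_of (koszul' hcard (y' - y) b hb hk) (y - y') ?_
  unfold K1_G
  rw [K1_bl_mul]
  congr 1
  · ext i j
    simp only [Matrix.mul_one, Matrix.add_apply, vecMulVec_apply, Pi.sub_apply]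
    ring
  · rw [Matrix.add_mulVec, Matrix.one_mulVec, K1_vmv_mulVec]
    ext i
    simp only [Pi.add_apply, Pi.smul_apply, Pi.sub_apply, smul_eq_mul]
    ring
  · simp
  · rw [h]; simp

/-- step 2 -/
theorem K1_step2 (hcard : 3 ≤ Fintype.card ι) (b y y' : ι → A) (hb : Um b) {α : Matrix ι ι A}
    (hα : α ∈ E ι A) (h : (b ᵥ* α) ⬝ᵥ y' = b ⬝ᵥ y) :
    K1_R (K1_G b y * K1_bl α 0 0 1) (K1_G (b ᵥ* α) y') := by
  obtain ⟨β, hβ, h1, h2⟩ := exists_inv_of_mem_E hα
  have h3 : (b ᵥ* α) ⬝ᵥ (β *ᵥ y) = b ⬝ᵥ y := by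
    rw [← Matrix.dotProduct_mulVec, Matrix.mulVec_mulVec, h1, Matrix.one_mulVec]
  refine K1_R.trans (N := K1_G (b ᵥ* α) (β *ᵥ y)) ?_ ?_
  · refine K1_R_of hα 0 ?_
    unfold K1_G
    rw [K1_bl_mul, K1_bl_mul]
    congr 1
    · simp [vecMulVec_zero, zero_vecMulVec]
    · rw [Matrix.mulVec_mulVec, h1]; simp
    · simp
    · rw [h3]; simp
  · refine K1_step1 hcard _ _ _ (hb.mul (by rw [det_of_mem_E hα]; exact isUnit_one)) ?_
    rw [h3, h]

/-- step 4 -/
theorem K1_step4 (hcard : 3 ≤ Fintype.card ι) (b t s y y' : ι → A) (ρ : A) (hs : b ⬝ᵥ s = 1)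
    (ht : t ⬝ᵥ s = 0) (hy : b ⬝ᵥ y = ρ - 1) (hy' : (b + ρ • t) ⬝ᵥ y' = ρ - 1) :
    K1_R (K1_G b y * K1_u t) (K1_G (b + ρ • t) y') := by
  have hb : Um b := ⟨s, hs⟩
  have hb' : Um (b + ρ • t) := ⟨s, by rw [add_dotProduct, smul_dotProduct, hs, ht]; simp⟩
  have e1 : b ⬝ᵥ ((ρ - 1) • s) = ρ - 1 := by rw [dotProduct_smul, hs]; simp
  have e2 : t ⬝ᵥ ((ρ - 1) • s) = 0 := by rw [dotProduct_smul, ht]; simp
  have e3 : (b + ρ • t) ⬝ᵥ ((ρ - 1) • s) = ρ - 1 := by
    rw [add_dotProduct, smul_dotProduct, e1, e2]; simp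
  refine ((K1_step1 hcard b y ((ρ - 1) • s) hb (by rw [hy, e1])).mul _).trans ?_
  refine K1_R.trans (N := K1_G (b + ρ • t) ((ρ - 1) • s)) ?_
    (K1_step1 hcard _ _ _ hb' (by rw [e3, hy']))
  have hmem : 1 + vecMulVec s ((ρ - 1) • t) ∈ E ι A :=
    koszul hcard s _ ⟨b, by rw [dotProduct_comm]; exact hs⟩ (by rw [smul_dotProduct, ht]; simp)
  refine K1_R_of hmem 0 ?_
  rw [K1_G_mul_u]
  unfold K1_G
  rw [K1_bl_mul, e1, e3]
  congr 1
  · ext i j
    simp only [Matrix.add_apply, vecMulVec_apply, Pi.smul_apply, smul_eq_mul, Matrix.mul_one,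
      Pi.zero_apply, zero_mul, add_zero]
    ring
  · rw [Matrix.add_mulVec, Matrix.one_mulVec, K1_vmv_mulVec, smul_dotProduct, e2]
    simp
  · simp
  · simp

/-- step 5 -/
theorem K1_step5 (hcard : 3 ≤ Fintype.card ι) (b h y y' : ι → A) (ρ τ : A) (m : ι) (hb : Um b)
    (hbm : b m = ρ * τ) (hm : h m = 0) (hy : b ⬝ᵥ y = ρ - 1)
    (hy' : (b + b m • h) ⬝ᵥ y' = ρ - 1) :
    K1_R (K1_G b y * K1_u (τ • h)) (K1_G (b + b m • h) y') := by
  -- β = 1 + e_m h
  have hβ : 1 + vecMulVec (Pi.single m 1) h ∈ E ι A := by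
    refine E_one_add_vecMulVec _ _ fun i => ?_
    by_cases hi : i = m
    · subst hi; exact Or.inr hm
    · exact Or.inl (Pi.single_eq_of_ne hi _)
  have hbβ : b ᵥ* (1 + vecMulVec (Pi.single m 1) h) = b + b m • h := by
    rw [vecMul_one_add_vecMulVec, dotProduct_single, mul_one]
  refine K1_R.trans (N := K1_G b y * K1_bl (1 + vecMulVec (Pi.single m 1) h) 0 0 1) ?_ ?_
  · have hq : Um (τ • y - Pi.single m 1) := by
      refine ⟨-(Pi.single m 1 + y m • b), ?_⟩
      rw [dotProduct_neg, dotProduct_add, dotProduct_smul, sub_dotProduct, sub_dotProduct,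
        dotProduct_single, dotProduct_single, smul_dotProduct, single_dotProduct,
        dotProduct_comm y b, hy, hbm]
      simp only [Pi.smul_apply, smul_eq_mul, Pi.single_eq_same]
      ring
    have hη : (h + (h ⬝ᵥ y) • b) ⬝ᵥ (τ • y - Pi.single m 1) = 0 := by
      rw [add_dotProduct, smul_dotProduct, dotProduct_sub, dotProduct_sub, dotProduct_smul,
        dotProduct_smul, dotProduct_single, dotProduct_single, hy, hm, hbm]
      simp only [smul_eq_mul]
      ring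
    refine K1_R_of (koszul hcard _ _ hq hη) (-(h ⬝ᵥ y) • (τ • y - Pi.single m 1)) ?_
    rw [K1_G_mul_u]
    unfold K1_G
    rw [K1_bl_mul, K1_bl_mul, hbβ]
    congr 1
    · rw [add_mul, one_mul, one_mul]
      have e1 : vecMulVec (τ • y - Pi.single m 1) (h + (h ⬝ᵥ y) • b) *
          (1 + vecMulVec (Pi.single m 1) h + vecMulVec y 0) =
          vecMulVec (τ • y - Pi.single m 1) (h + (h ⬝ᵥ y) • (b + b m • h)) := by
        rw [vecMulVec_zero, add_zero, mul_add, mul_one, KOS_vmv_mul, dotProduct_single]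
        ext i j
        simp only [Matrix.add_apply, Matrix.smul_apply, vecMulVec_apply, Pi.add_apply,
          Pi.smul_apply, smul_eq_mul, hm]
        ring
      rw [e1]
      ext i j
      simp only [Matrix.add_apply, vecMulVec_apply, Pi.add_apply, Pi.sub_apply,
        Pi.smul_apply, smul_eq_mul, Pi.zero_apply]
      ring
    · rw [Matrix.one_mulVec, Matrix.add_mulVec, Matrix.one_mulVec, K1_vmv_mulVec]
      ext i
      simp only [Pi.add_apply, Pi.smul_apply, Pi.sub_apply, smul_eq_mul, add_dotProduct,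
        smul_dotProduct, dotProduct_add, dotProduct_smul, hy, Pi.zero_apply, dotProduct_zero]
      ring
    · rw [hbm]
      ext i
      simp only [Pi.add_apply, Pi.smul_apply, smul_eq_mul, hy, Matrix.zero_vecMul, Pi.zero_apply]
      ring
    · simp
  · rw [← hbβ]
    refine K1_step2 hcard b y y' hb hβ ?_
    rw [hbβ, hy', hy]

/-- shortening of a unimodular row at any position -/
theorem SR_shorten {n : ℕ} (hSR : SR A n) (hcard : Fintype.card ι = n + 1) (i₀ : ι) (r : ι → A)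
    (ρ : A) (hu : ∃ (a : ι → A) (c : A), r ⬝ᵥ a + ρ * c = 1) :
    ∃ t : ι → A, t i₀ = 0 ∧ Um (r + ρ • t) := by
  obtain ⟨a, c, hac⟩ := hu
  have e0 : Option (Fin n) ≃ ι := Fintype.equivOfCardEq (by simp [hcard])
  obtain ⟨e, he⟩ : ∃ e : Option (Fin n) ≃ ι, e none = i₀ :=
    ⟨e0.trans (Equiv.swap (e0 none) i₀), by simp⟩
  subst he
  have h1 : r (e none) * a (e none) + ∑ j : Fin n, r (e (some j)) * a (e (some j)) + ρ * c = 1 := by
    rw [← hac, dotProduct, ← e.sum_comp, Fintype.sum_option]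
  obtain ⟨h, z, hz⟩ := hSR (fun j => r (e (some j))) (r (e none) * a (e none) + ρ * c)
    ⟨fun j => a (e (some j)), 1, by rw [dotProduct]; linear_combination h1⟩
  refine ⟨fun j => (e.symm j).elim 0 (fun k => c * h k), by simp, ?_⟩
  refine ⟨fun j => (e.symm j).elim (a (e none) * ∑ k, h k * z k) z, ?_⟩
  rw [← hz, dotProduct, ← e.sum_comp, Fintype.sum_option, dotProduct]
  simp only [Equiv.symm_apply_apply, Option.elim, Pi.add_apply, Pi.smul_apply, smul_eq_mul,
    mul_zero, add_zero]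
  rw [← mul_assoc, Finset.mul_sum, ← Finset.sum_add_distrib]
  exact Finset.sum_congr rfl fun j _ => by ring

/-- all entries but the one at `i₀` become unimodular -/
theorem SR_shorten' {n : ℕ} (hSR : SR A n) (hcard : Fintype.card ι = n + 1) (i₀ : ι) (v : ι → A)
    (hv : Um v) : ∃ h s : ι → A, h i₀ = 0 ∧ s i₀ = 0 ∧ (v + v i₀ • h) ⬝ᵥ s = 1 := by
  obtain ⟨w, hw⟩ := hv
  have e0 : Option (Fin n) ≃ ι := Fintype.equivOfCardEq (by simp [hcard])
  obtain ⟨e, he⟩ : ∃ e : Option (Fin n) ≃ ι, e none = i₀ :=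
    ⟨e0.trans (Equiv.swap (e0 none) i₀), by simp⟩
  have hw2 : v i₀ * w i₀ + ∑ j : Fin n, v (e (some j)) * w (e (some j)) = 1 := by
    rw [← hw, dotProduct, ← e.sum_comp, Fintype.sum_option, he]
  obtain ⟨h, z, hz⟩ := hSR (fun j => v (e (some j))) (v i₀)
    ⟨fun j => w (e (some j)), w i₀, by rw [dotProduct]; linear_combination hw2⟩
  refine ⟨fun j => (e.symm j).elim 0 h, fun j => (e.symm j).elim 0 z, by simp [← he],
    by simp [← he], ?_⟩
  rw [← hz, dotProduct, ← e.sum_comp, Fintype.sum_option, dotProduct]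
  simp only [Equiv.symm_apply_apply, Option.elim, mul_zero, zero_add, Pi.add_apply, Pi.smul_apply,
    smul_eq_mul]
  exact Finset.sum_congr rfl fun j _ => by ring

/-- step 6 for the unit row -/
theorem K1_step6a {n : ℕ} (hcard3 : 3 ≤ Fintype.card ι) (hcard : Fintype.card ι = n + 1)
    (hSR : SR A n) (i₀ i₁ : ι) (hi : i₁ ≠ i₀) (t y y' : ι → A) (ρ : A)
    (hb' : Um (Pi.single i₁ 1 + ρ • t)) (hy : (Pi.single i₁ 1 : ι → A) ⬝ᵥ y = ρ - 1)
    (hy' : (Pi.single i₁ 1 + ρ • t) ⬝ᵥ y' = ρ - 1) :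
    K1_R (K1_G (Pi.single i₁ 1) y * K1_u t) (K1_G (Pi.single i₁ 1 + ρ • t) y') := by
  set b : ι → A := Pi.single i₁ 1 with hb
  set b' := b + ρ • t with hb'def
  have hbi : b i₀ = 0 := Pi.single_eq_of_ne (Ne.symm hi) _
  have hb'i : b' i₀ = ρ * t i₀ := by
    rw [hb'def, Pi.add_apply, hbi, zero_add, Pi.smul_apply, smul_eq_mul]
  obtain ⟨h, s, h0, s0, hs⟩ := SR_shorten' hSR hcard i₀ b' hb'
  set b1 := b' + b' i₀ • h with hb1
  have h5 : K1_R (K1_G b' y' * K1_u (t i₀ • h)) (K1_G b1 ((ρ - 1) • s)) :=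
    K1_step5 hcard3 b' h y' _ ρ (t i₀) i₀ hb' hb'i h0 hy'
      (by rw [dotProduct_smul, hs]; simp)
  set t' : ι → A := (1 - t i₀) • Pi.single i₀ 1 with ht'
  have ht's : t' ⬝ᵥ s = 0 := by
    rw [ht', smul_dotProduct, single_dotProduct, s0]; simp
  have h4 : K1_R (K1_G b1 ((ρ - 1) • s) * K1_u t') (K1_G (b1 + ρ • t') ((ρ - 1) • s)) :=
    K1_step4 hcard3 b1 t' s _ _ ρ hs ht's (by rw [dotProduct_smul, hs]; simp)
      (by rw [dotProduct_smul, add_dotProduct, smul_dotProduct, hs, ht's]; simp)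
  set t2 : ι → A := t + t i₀ • h + t' with ht2
  have ht2i : t2 i₀ = 1 := by
    rw [ht2, Pi.add_apply, Pi.add_apply, Pi.smul_apply, h0, ht', Pi.smul_apply, Pi.single_eq_same]
    simp
  have hb2 : b + ρ • t2 = b1 + ρ • t' := by
    rw [ht2, hb1, hb'i, hb'def]
    ext j
    simp only [Pi.add_apply, Pi.smul_apply, smul_eq_mul]
    ring
  have h4' : K1_R (K1_G b y * K1_u t2) (K1_G (b + ρ • t2) ((ρ - 1) • s)) := by
    refine K1_step4 hcard3 b t2 (Pi.single i₁ 1 - t2 i₁ • Pi.single i₀ 1) _ _ ρ ?_ ?_ hy ?_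
    · rw [dotProduct_sub, dotProduct_smul, dotProduct_single, dotProduct_single, hbi, hb,
        Pi.single_eq_same]
      simp
    · rw [dotProduct_sub, dotProduct_smul, dotProduct_single, dotProduct_single, ht2i]
      simp
    · rw [hb2, dotProduct_smul, add_dotProduct, smul_dotProduct, hs, ht's]; simp
  rw [hb2] at h4'
  have h7 : K1_R (K1_G b y * K1_u t2) (K1_G b' y' * K1_u (t i₀ • h) * K1_u t') :=
    h4'.trans (((h5.mul (K1_u t')).trans h4).symm)
  have h8 := h7.mul (K1_u (-(t i₀ • h + t')))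
  rw [Matrix.mul_assoc, K1_u_mul, Matrix.mul_assoc (K1_G b' y'), K1_u_mul, Matrix.mul_assoc,
    K1_u_mul] at h8
  have e1 : t2 + -(t i₀ • h + t') = t := by rw [ht2]; abel
  have e2 : t i₀ • h + t' + -(t i₀ • h + t') = 0 := by abel
  rw [e1, e2] at h8
  have e3 : K1_u (0 : ι → A) = 1 := by rw [K1_bl_one]; rfl
  rwa [e3, Matrix.mul_one] at h8

/-- step 6 -/
theorem K1_step6 {n : ℕ} (hn : 2 ≤ n) (hcard : Fintype.card ι = n + 1)
    (hSR : SR A n) (b t y y' : ι → A) (ρ : A) (hb : Um b)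
    (hb' : Um (b + ρ • t)) (hy : b ⬝ᵥ y = ρ - 1) (hy' : (b + ρ • t) ⬝ᵥ y' = ρ - 1) :
    K1_R (K1_G b y * K1_u t) (K1_G (b + ρ • t) y') := by
  have hcard3 : 3 ≤ Fintype.card ι := by omega
  obtain ⟨i₀, i₁, hi⟩ := Fintype.exists_pair_of_one_lt_card (α := ι) (by omega)
  obtain ⟨α, hα, hbα⟩ := EEq_single_of_SR hSR (by omega) b hb i₁
  obtain ⟨β, hβ, h1, h2⟩ := exists_inv_of_mem_E hα
  have hdα : IsUnit α.det := by rw [det_of_mem_E hα]; exact isUnit_one
  have hdβ : IsUnit β.det := by rw [det_of_mem_E hβ]; exact isUnit_one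
  have e1 : (Pi.single i₁ 1 + ρ • (t ᵥ* β)) ᵥ* α = b + ρ • t := by
    rw [Matrix.add_vecMul, ← hbα, Matrix.smul_vecMul, Matrix.vecMul_vecMul, h2, Matrix.vecMul_one]
  have e2 : Um (Pi.single i₁ 1 + ρ • (t ᵥ* β)) := by
    have := hb'.mul hdβ
    rwa [← e1, Matrix.vecMul_vecMul, h1, Matrix.vecMul_one] at this
  have e3 : (Pi.single i₁ 1 : ι → A) ⬝ᵥ (α *ᵥ y) = ρ - 1 := by
    rw [Matrix.dotProduct_mulVec, ← hbα, hy]
  have e4 : (Pi.single i₁ 1 + ρ • (t ᵥ* β)) ⬝ᵥ (α *ᵥ y') = ρ - 1 := by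
    rw [Matrix.dotProduct_mulVec, e1, hy']
  have s1 : K1_R (K1_G b y) (K1_G (Pi.single i₁ 1) (α *ᵥ y) * K1_bl α 0 0 1) := by
    have := K1_step2 hcard3 (Pi.single i₁ 1) (α *ᵥ y) y ⟨Pi.single i₁ 1, by simp⟩ hα
      (by rw [← hbα, hy, e3])
    rw [← hbα] at this
    exact this.symm
  have s2 := K1_step6a hcard3 hcard hSR i₀ i₁ (Ne.symm hi) (t ᵥ* β) (α *ᵥ y) (α *ᵥ y') ρ e2 e3 e4
  have s3 : K1_R (K1_G (Pi.single i₁ 1 + ρ • (t ᵥ* β)) (α *ᵥ y') * K1_bl α 0 0 1)
      (K1_G (b + ρ • t) y') := by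
    have := K1_step2 hcard3 (Pi.single i₁ 1 + ρ • (t ᵥ* β)) (α *ᵥ y') y' e2 hα
      (by rw [e1, hy', e4])
    rwa [e1] at this
  refine (s1.mul (K1_u t)).trans ?_
  refine K1_R.trans ?_ s3
  have e5 : (K1_bl α 0 0 1 : Matrix (ι ⊕ Unit) (ι ⊕ Unit) A) * K1_u t =
      K1_u (t ᵥ* β) * K1_bl α 0 0 1 := by
    unfold K1_u
    rw [K1_bl_mul, K1_bl_mul]
    congr 1
    · simp [zero_vecMulVec]
    · simp
    · rw [Matrix.vecMul_vecMul, h2]; simp
    · simp
  rw [Matrix.mul_assoc, e5, ← Matrix.mul_assoc]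
  exact s2.mul _

/-- the class of a matrix with last row `(r, ρ)` is the expected one -/
def K1_Q (r : ι → A) (ρ : A) (M : Matrix (ι ⊕ Unit) (ι ⊕ Unit) A) : Prop :=
  ∀ t y : ι → A, Um (r + ρ • t) → (r + ρ • t) ⬝ᵥ y = ρ - 1 →
    K1_R M (K1_G (r + ρ • t) y * K1_u (-t))

theorem K1_Q_of {n : ℕ} (hn : 2 ≤ n) (hcard : Fintype.card ι = n + 1)
    (hSR : SR A n) (r : ι → A) (ρ : A) (M : Matrix (ι ⊕ Unit) (ι ⊕ Unit) A) (t y : ι → A)
    (hu : Um (r + ρ • t)) (hy : (r + ρ • t) ⬝ᵥ y = ρ - 1)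
    (h : K1_R M (K1_G (r + ρ • t) y * K1_u (-t))) : K1_Q r ρ M := by
  intro t' y' hu' hy'
  have e1 : r + ρ • t + ρ • (t' - t) = r + ρ • t' := by
    ext j
    simp only [Pi.add_apply, Pi.smul_apply, Pi.sub_apply, smul_eq_mul]
    ring
  have h6 := K1_step6 hn hcard hSR (r + ρ • t) (t' - t) y y' ρ hu (by rw [e1]; exact hu') hy
    (by rw [e1]; exact hy')
  rw [e1] at h6
  have h7 := h6.mul (K1_u (-t'))
  rw [Matrix.mul_assoc, K1_u_mul] at h7
  have e2 : t' - t + -t' = -t := by abel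
  rw [e2] at h7
  exact h.trans h7

/-- `K1` (T2): injective stability -/
theorem K1 {n : ℕ} (hn : 2 ≤ n) (hcard : Fintype.card ι = n + 1) (hSR : SR A n)
    (g : Matrix ι ι A) (hg : fromBlocks g 0 0 (1 : Matrix Unit Unit A) ∈ E (ι ⊕ Unit) A) :
    g ∈ E ι A := by
  have hcard3 : 3 ≤ Fintype.card ι := by omega
  have key : ∀ M ∈ E (ι ⊕ Unit) A, ∃ (α : Matrix ι ι A) (x r : ι → A) (ρ : A),
      M = K1_bl α x r ρ ∧ (∃ (a : ι → A) (c : A), r ⬝ᵥ a + ρ * c = 1) ∧ K1_Q r ρ M := by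
    intro M hM
    refine E_induction (P := fun M => ∃ (α : Matrix ι ι A) (x r : ι → A) (ρ : A),
      M = K1_bl α x r ρ ∧ (∃ (a : ι → A) (c : A), r ⬝ᵥ a + ρ * c = 1) ∧ K1_Q r ρ M) ?_ ?_ hM
    · obtain ⟨i₁⟩ : Nonempty ι := Fintype.card_pos_iff.1 (by omega)
      refine ⟨1, 0, 0, 1, K1_bl_one, ⟨0, 1, by simp⟩, ?_⟩
      refine K1_Q_of hn hcard hSR 0 1 1 (Pi.single i₁ 1) 0 ⟨Pi.single i₁ 1, by simp⟩ (by simp) ?_
      have : K1_G (0 + (1 : A) • Pi.single i₁ 1) 0 * K1_u (-Pi.single i₁ 1) =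
          (1 : Matrix (ι ⊕ Unit) (ι ⊕ Unit) A) := by
        rw [K1_G_mul_u, K1_bl_one]
        congr 1 <;> simp [zero_vecMulVec]
      rw [this]
      exact K1_R.refl 1
    · rintro M a b c hab ⟨α, x, r, ρ, hM, hu, hQ⟩
      rcases a with a | ⟨⟩ <;> rcases b with b | ⟨⟩
      · -- `transvection a b c ⊕ 1`
        have hab' : a ≠ b := fun h => hab (by rw [h])
        have hT : transvection (Sum.inl a) (Sum.inl b) c =
            (K1_bl (transvection a b c) 0 0 1 : Matrix (ι ⊕ Unit) (ι ⊕ Unit) A) := by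
          rw [transvection, transvection, K1_bl_one]
          unfold K1_bl
          ext i j
          rcases i with i | i <;> rcases j with j | j <;>
            simp [Matrix.single_apply]
        set τ : Matrix ι ι A := transvection a b c with hτ
        have hτE : τ ∈ E ι A := transvection_mem_E hab' c
        obtain ⟨σ, hσ, h1, h2⟩ := exists_inv_of_mem_E hτE
        obtain ⟨t, -, w, hw⟩ := SR_shorten hSR hcard a r ρ hu
        have hy0 : (r + ρ • t) ⬝ᵥ ((ρ - 1) • w) = ρ - 1 := by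
          rw [dotProduct_smul, hw]; simp
        have hq := hQ t ((ρ - 1) • w) ⟨w, hw⟩ hy0
        refine ⟨α * τ, x, r ᵥ* τ, ρ, ?_, ?_, ?_⟩
        · rw [hM, hT, K1_bl_mul]
          congr 1 <;> simp [vecMulVec_zero]
        · obtain ⟨a', c', hac⟩ := hu
          refine ⟨σ *ᵥ a', c', ?_⟩
          rw [← Matrix.dotProduct_mulVec, Matrix.mulVec_mulVec, h1, Matrix.one_mulVec, hac]
        · have e1 : (r + ρ • t) ᵥ* τ = r ᵥ* τ + ρ • (t ᵥ* τ) := by
            rw [Matrix.add_vecMul, Matrix.smul_vecMul]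
          have e2 : (r ᵥ* τ + ρ • (t ᵥ* τ)) ⬝ᵥ (σ *ᵥ ((ρ - 1) • w)) = ρ - 1 := by
            rw [← e1, ← Matrix.dotProduct_mulVec, Matrix.mulVec_mulVec, h1, Matrix.one_mulVec, hy0]
          refine K1_Q_of hn hcard hSR _ _ _ (t ᵥ* τ) (σ *ᵥ ((ρ - 1) • w)) ?_ e2 ?_
          · rw [← e1]
            exact Um.mul ⟨w, hw⟩ (by rw [det_of_mem_E hτE]; exact isUnit_one)
          · rw [hT]
            refine (hq.mul _).trans ?_
            have e3 : K1_u (-t) * K1_bl τ 0 0 1 =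
                K1_bl τ 0 0 1 * (K1_u (-(t ᵥ* τ)) : Matrix (ι ⊕ Unit) (ι ⊕ Unit) A) := by
              unfold K1_u
              rw [K1_bl_mul, K1_bl_mul]
              congr 1
              · simp [zero_vecMulVec]
              · simp
              · simp [Matrix.neg_vecMul]
              · simp
            rw [Matrix.mul_assoc, e3, ← Matrix.mul_assoc]
            refine K1_R.mul ?_ _
            have := K1_step2 hcard3 (r + ρ • t) ((ρ - 1) • w) (σ *ᵥ ((ρ - 1) • w)) ⟨w, hw⟩ hτE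
              (by rw [e1, e2, hy0])
            rwa [e1] at this
      · -- `c (c e_a)`
        have hT : transvection (Sum.inl a) (Sum.inr ()) c =
            (K1_c (Pi.single a c) : Matrix (ι ⊕ Unit) (ι ⊕ Unit) A) := by
          rw [transvection, K1_bl_one]
          unfold K1_c K1_bl
          ext i j
          rcases i with i | i <;> rcases j with j | j <;>
            simp [Matrix.single_apply, Pi.single_apply, eq_comm]
        obtain ⟨t, ht0, w, hw⟩ := SR_shorten hSR hcard a r ρ hu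
        have hy0 : (r + ρ • t) ⬝ᵥ ((ρ - 1) • w) = ρ - 1 := by
          rw [dotProduct_smul, hw]; simp
        have hq := hQ t ((ρ - 1) • w) ⟨w, hw⟩ hy0
        set z : ι → A := Pi.single a c with hz
        have htz : t ⬝ᵥ z = 0 := by rw [hz, dotProduct_single, ht0, zero_mul]
        set ρ1 : A := r ⬝ᵥ z + ρ with hρ1
        have hβ : 1 + vecMulVec z t ∈ E ι A := by
          refine E_one_add_vecMulVec _ _ fun i => ?_
          by_cases hi : i = a
          · subst hi; exact Or.inr ht0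
          · exact Or.inl (Pi.single_eq_of_ne hi _)
        have hrz : (r + ρ • t) ⬝ᵥ z = r ⬝ᵥ z := by
          rw [add_dotProduct, smul_dotProduct, htz]; simp
        have e1 : (r + ρ • t) ᵥ* (1 + vecMulVec z t) = r + ρ1 • t := by
          rw [vecMul_one_add_vecMulVec, hrz, hρ1]
          ext j
          simp only [Pi.add_apply, Pi.smul_apply, smul_eq_mul]
          ring
        have hu1 : Um (r + ρ1 • t) := by
          rw [← e1]
          exact Um.mul ⟨w, hw⟩ (by rw [det_of_mem_E hβ]; exact isUnit_one)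
        obtain ⟨w', hw'⟩ := hu1
        have hy1 : (r + ρ1 • t) ⬝ᵥ ((ρ - 1) • w') = ρ - 1 := by
          rw [dotProduct_smul, hw']; simp
        have hr1z : (r + ρ1 • t) ⬝ᵥ z = r ⬝ᵥ z := by
          rw [add_dotProduct, smul_dotProduct, htz]; simp
        refine ⟨α, α *ᵥ z + x, r, ρ1, ?_, ?_, ?_⟩
        · rw [hM, hT]
          unfold K1_c
          rw [K1_bl_mul]
          congr 1
          · simp [vecMulVec_zero]
          · simp
          · simp
          · simp [hρ1]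
        · obtain ⟨a', c', hac⟩ := hu
          refine ⟨a' - c' • z, c', ?_⟩
          rw [dotProduct_sub, dotProduct_smul, smul_eq_mul, hρ1]
          linear_combination hac
        · refine K1_Q_of hn hcard hSR _ _ _ t ((ρ - 1) • w' + z) ⟨w', hw'⟩ ?_ ?_
          · rw [dotProduct_add, hy1, hr1z, hρ1]; ring
          · rw [hT]
            refine (hq.mul _).trans ?_
            have e3 : K1_u (-t) * K1_c z =
                K1_bl (1 + vecMulVec z t) 0 0 1 *
                  (K1_c z * K1_u (-t) : Matrix (ι ⊕ Unit) (ι ⊕ Unit) A) := by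
              unfold K1_u K1_c
              rw [K1_bl_mul, K1_bl_mul, K1_bl_mul]
              congr 1
              · simp only [zero_vecMulVec, add_zero, mul_one]
                rw [mul_add, mul_one, add_mul, one_mul, KOS_vmv_mul, htz, zero_smul, add_zero]
                ext i j
                simp [vecMulVec_apply]
              · simp only [Matrix.one_mulVec, smul_zero, add_zero, Matrix.mulVec_zero, zero_add,
                  one_smul]
                rw [Matrix.add_mulVec, Matrix.one_mulVec, K1_vmv_mulVec, htz, zero_smul, add_zero]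
              · simp
              · simp [htz]
            rw [Matrix.mul_assoc, e3, ← Matrix.mul_assoc, ← Matrix.mul_assoc]
            refine K1_R.mul ?_ _
            rw [← K1_G_mul_c]
            refine K1_R.mul ?_ _
            have := K1_step2 hcard3 (r + ρ • t) ((ρ - 1) • w) ((ρ - 1) • w') ⟨w, hw⟩ hβ
              (by rw [e1, hy1, hy0])
            rwa [e1] at this
      · -- `u (c e_b)`
        have hT : transvection (Sum.inr ()) (Sum.inl b) c =
            (K1_u (Pi.single b c) : Matrix (ι ⊕ Unit) (ι ⊕ Unit) A) := by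
          rw [transvection, K1_bl_one]
          unfold K1_u K1_bl
          ext i j
          rcases i with i | i <;> rcases j with j | j <;>
            simp [Matrix.single_apply, Pi.single_apply, eq_comm]
        obtain ⟨t, -, w, hw⟩ := SR_shorten hSR hcard b r ρ hu
        have hy0 : (r + ρ • t) ⬝ᵥ ((ρ - 1) • w) = ρ - 1 := by
          rw [dotProduct_smul, hw]; simp
        have hq := hQ t ((ρ - 1) • w) ⟨w, hw⟩ hy0
        set z : ι → A := Pi.single b c with hz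
        have e1 : r + ρ • z + ρ • (t - z) = r + ρ • t := by
          ext j
          simp only [Pi.add_apply, Pi.smul_apply, Pi.sub_apply, smul_eq_mul]
          ring
        refine ⟨α + vecMulVec x z, x, r + ρ • z, ρ, ?_, ?_, ?_⟩
        · rw [hM, hT]
          unfold K1_u
          rw [K1_bl_mul]
          congr 1 <;> simp
        · obtain ⟨a', c', hac⟩ := hu
          refine ⟨a', c' - z ⬝ᵥ a', ?_⟩
          rw [add_dotProduct, smul_dotProduct, smul_eq_mul]
          linear_combination hac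
        · refine K1_Q_of hn hcard hSR _ _ _ (t - z) ((ρ - 1) • w) ?_ ?_ ?_
          · rw [e1]; exact ⟨w, hw⟩
          · rw [e1]; exact hy0
          · rw [hT, e1]
            have h3 := hq.mul (K1_u z)
            rw [Matrix.mul_assoc, K1_u_mul] at h3
            have e2 : -(t - z) = -t + z := by abel
            rw [e2]
            exact h3
      · exact absurd rfl hab
  obtain ⟨α, x, r, ρ, hM, hu, hQ⟩ := key _ hg
  have hg' : fromBlocks g 0 0 (1 : Matrix Unit Unit A) = K1_bl g 0 0 1 := by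
    unfold K1_bl
    congr 1
  rw [hg'] at hM hQ
  obtain ⟨-, -, hr, hρ⟩ := K1_bl_inj hM
  subst hr
  subst hρ
  obtain ⟨i₁⟩ : Nonempty ι := Fintype.card_pos_iff.1 (by omega)
  have h := hQ (Pi.single i₁ 1) 0 ⟨Pi.single i₁ 1, by simp⟩ (by simp)
  have h2 : K1_G (0 + (1 : A) • Pi.single i₁ 1) 0 * K1_u (-Pi.single i₁ 1) =
      (1 : Matrix (ι ⊕ Unit) (ι ⊕ Unit) A) := by
    rw [K1_G_mul_u, K1_bl_one]
    congr 1 <;> simp [zero_vecMulVec]
  rw [h2] at h
  obtain ⟨β, hβ, y, hy⟩ := h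
  rw [Matrix.mul_one] at hy
  rw [(K1_bl_inj hy).1]
  exact hβ

/-- `K1`, iterated: `g ⊕ 1` elementary (identity block of any size) implies `g` elementary -/
theorem K1_iter {n : ℕ} (hn : 2 ≤ n) (hSR : SR A n) (hcard : Fintype.card ι = n + 1)
    {κ : Type*} [Fintype κ] [DecidableEq κ] (g : Matrix ι ι A)
    (hg : fromBlocks g 0 0 (1 : Matrix κ κ A) ∈ E (ι ⊕ κ) A) : g ∈ E ι A := by
  have key : ∀ r : ℕ, fromBlocks g 0 0 (1 : Matrix (Fin r) (Fin r) A) ∈ E (ι ⊕ Fin r) A →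
      g ∈ E ι A := by
    intro r
    induction r with
    | zero =>
      intro h
      have h1 := E_submatrix (Equiv.sumEmpty ι (Fin 0)).symm h
      have h2 : (fromBlocks g 0 0 (1 : Matrix (Fin 0) (Fin 0) A)).submatrix
          (Equiv.sumEmpty ι (Fin 0)).symm (Equiv.sumEmpty ι (Fin 0)).symm = g := by
        ext i j
        simp
      rwa [h2] at h1
    | succ r ih =>
      intro h
      refine ih ?_
      refine K1 (n := n + r) (by omega) (by simp [hcard]; ring) (SR_mono (by omega) hSR) _ ?_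
      let e : (ι ⊕ Fin r) ⊕ Unit ≃ ι ⊕ Fin (r + 1) :=
        (Equiv.sumAssoc ι (Fin r) Unit).trans
          (Equiv.sumCongr (Equiv.refl ι)
            ((Equiv.optionEquivSumPUnit (Fin r)).symm.trans finSuccEquivLast.symm))
      have h1 := E_submatrix e h
      have h2 : (fromBlocks g 0 0 (1 : Matrix (Fin (r + 1)) (Fin (r + 1)) A)).submatrix e e =
          fromBlocks (fromBlocks g 0 0 (1 : Matrix (Fin r) (Fin r) A)) 0 0
            (1 : Matrix Unit Unit A) := by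
        ext i j
        rcases i with (i | i) | i <;> rcases j with (j | j) | j <;>
          simp [e, Matrix.one_apply, Fin.ext_iff]
        · intro h; exact absurd h (by have := i.2; omega)
        · intro h; exact absurd h (by have := j.2; omega)
      rwa [h2] at h1
  refine key (Fintype.card κ) ?_
  have e : κ ≃ Fin (Fintype.card κ) := Fintype.equivFin κ
  have h1 := E_submatrix (Equiv.sumCongr (Equiv.refl ι) e.symm) hg
  have h2 : (fromBlocks g 0 0 (1 : Matrix κ κ A)).submatrix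
      (Equiv.sumCongr (Equiv.refl ι) e.symm) (Equiv.sumCongr (Equiv.refl ι) e.symm) =
      fromBlocks g 0 0 (1 : Matrix (Fin (Fintype.card κ)) (Fin (Fintype.card κ)) A) := by
    ext i j
    rcases i with i | i <;> rcases j with j | j <;> simp [Matrix.one_apply]
  rwa [h2] at h1

end K1

end GB
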