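import Mathlib
import Pool.Agent.helper65.GB.Elem
import Pool.Agent.helper70.GB.SpecN

/-!
# Module SI of project gb (MP_7933bc): the subintegral lemma
-/

set_option autoImplicit false

open Matrix

namespace GB

universe u

section SI

variable {A D : Type*} [CommRing A] [CommRing D] {ι : Type*} [Fintype ι] [DecidableEq ι]

/-- the group generated by the transvections which do not change the row `i₁` of the identity -/
def SI_E (i₁ : ι) (A : Type*) [CommRing A] : Submonoid (Matrix ι ι A) :=
  Submonoid.closure {M | ∃ (i j : ι) (c : A), i ≠ j ∧ i ≠ i₁ ∧ M = Matrix.transvection i j c}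

theorem SI_mem (i₁ : ι) {i j : ι} (hij : i ≠ j) (hi : i ≠ i₁) (c : A) :
    transvection i j c ∈ SI_E i₁ A := Submonoid.subset_closure ⟨i, j, c, hij, hi, rfl⟩

theorem SI_row (i₁ : ι) {M : Matrix ι ι A} (h : M ∈ SI_E i₁ A) : M i₁ = Pi.single i₁ 1 := by
  induction h using Submonoid.closure_induction with
  | mem M hM =>
    obtain ⟨i, j, c, hij, hi, rfl⟩ := hM
    ext k
    simp [transvection, hi, Matrix.one_apply, Pi.single_apply, eq_comm]
  | one =>
    ext k
    simp [Matrix.one_apply, Pi.single_apply, eq_comm]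
  | mul M N _ _ hM hN =>
    have : (M * N) i₁ = M i₁ ᵥ* N := by
      ext k
      simp [Matrix.mul_apply, Matrix.vecMul, dotProduct]
    rw [this, hM, Matrix.single_one_vecMul]
    exact hN

theorem SI_inv (i₁ : ι) {M : Matrix ι ι A} (h : M ∈ SI_E i₁ A) :
    ∃ N ∈ SI_E i₁ A, M * N = 1 ∧ N * M = 1 := by
  induction h using Submonoid.closure_induction with
  | mem M hM =>
    obtain ⟨i, j, c, hij, hi, rfl⟩ := hM
    refine ⟨Matrix.transvection i j (-c), SI_mem i₁ hij hi _, ?_, ?_⟩
    · rw [Matrix.transvection_mul_transvection_same i j hij]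
      simp
    · rw [Matrix.transvection_mul_transvection_same i j hij]
      simp
  | one => exact ⟨1, (SI_E i₁ A).one_mem, by simp, by simp⟩
  | mul M N _ _ hM hN =>
    obtain ⟨M', hM', h1, h2⟩ := hM
    obtain ⟨N', hN', h3, h4⟩ := hN
    refine ⟨N' * M', (SI_E i₁ A).mul_mem hN' hM', ?_, ?_⟩
    · calc M * N * (N' * M') = M * (N * N') * M' := by simp only [Matrix.mul_assoc]
        _ = 1 := by rw [h3, Matrix.mul_one, h1]
    · calc N' * M' * (M * N) = N' * (M' * M) * N := by simp only [Matrix.mul_assoc]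
        _ = 1 := by rw [h2, Matrix.mul_one, h4]

theorem SI_det (i₁ : ι) {M : Matrix ι ι A} (h : M ∈ SI_E i₁ A) : M.det = 1 := by
  induction h using Submonoid.closure_induction with
  | mem M hM =>
    obtain ⟨i, j, c, hij, hi, rfl⟩ := hM
    exact Matrix.det_transvection_of_ne i j hij c
  | one => simp
  | mul M N _ _ hM hN => rw [Matrix.det_mul, hM, hN, one_mul]

theorem SI_lift (i₁ : ι) (f : A →+* D) (hf : Function.Surjective f) {M : Matrix ι ι D}
    (h : M ∈ SI_E i₁ D) : ∃ N ∈ SI_E i₁ A, N.map f = M := by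
  induction h using Submonoid.closure_induction with
  | mem M hM =>
    obtain ⟨i, j, c, hij, hi, rfl⟩ := hM
    obtain ⟨c, rfl⟩ := hf c
    exact ⟨transvection i j c, SI_mem i₁ hij hi _, E_map_transvection _ _ _ _⟩
  | one => exact ⟨1, (SI_E i₁ A).one_mem, Matrix.map_one _ (map_zero f) (map_one f)⟩
  | mul M N _ _ hM hN =>
    obtain ⟨M', hM', rfl⟩ := hM
    obtain ⟨N', hN', rfl⟩ := hN
    exact ⟨M' * N', (SI_E i₁ A).mul_mem hM' hN', Matrix.map_mul⟩

theorem SI_diagonal (i₁ : ι) {i j : ι} (hij : i ≠ j) (hi : i ≠ i₁) (hj : j ≠ i₁) (u u' : A)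
    (hu : u * u' = 1) :
    Matrix.diagonal (Function.update (Function.update (1 : ι → A) i u) j u') ∈ SI_E i₁ A := by
  have h : transvection i j u * transvection j i (-u') * transvection i j u *
      (transvection i j (-1) * transvection j i 1 * transvection i j (-1)) ∈ SI_E i₁ A := by
    refine Submonoid.mul_mem _ (Submonoid.mul_mem _ (Submonoid.mul_mem _ ?_ ?_) ?_)
      (Submonoid.mul_mem _ (Submonoid.mul_mem _ ?_ ?_) ?_)
    all_goals first | exact SI_mem i₁ hij hi _ | exact SI_mem i₁ hij.symm hj _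
  convert h using 1
  refine Matrix.ext fun a b => ?_
  have key : ∀ v : ι → A, v ᵥ* Matrix.diagonal (Function.update (Function.update (1 : ι → A) i u) j u') =
      v ᵥ* (transvection i j u * transvection j i (-u') * transvection i j u *
      (transvection i j (-1) * transvection j i 1 * transvection i j (-1))) := by
    intro v
    simp only [← Matrix.vecMul_vecMul, vecMul_transvection]
    ext k
    rw [Matrix.vecMul_diagonal]
    by_cases hi : k = i
    · subst hi
      simp only [Function.update_of_ne hij, Function.update_of_ne hij.symm, Function.update_self]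
      linear_combination (v k * u + v j) * hu
    · by_cases hj : k = j
      · subst hj
        simp only [Function.update_of_ne hij, Function.update_of_ne hij.symm, Function.update_self]
        linear_combination (-v i) * hu
      · simp only [Function.update_of_ne hi, Function.update_of_ne hj, Pi.one_apply, mul_one]
  have h3 := congrFun (key (Pi.single a 1)) b
  rw [Matrix.single_one_vecMul, Matrix.single_one_vecMul] at h3
  exact h3

/-- if `β² = 0`, the row `i₁` of `N` is zero and the trace of `N` is zero then `1 + β N` is a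
product of transvections which do not change the row `i₁` -/
theorem SI_one_add (i₁ i₂ : ι) (h12 : i₂ ≠ i₁) (β : D) (hβ : β * β = 0) (N : Matrix ι ι D)
    (hrow : ∀ j, N i₁ j = 0) (htr : ∑ i, N i i = 0) : 1 + β • N ∈ SI_E i₁ D := by
  -- additive closure
  have hadd : ∀ M M' : Matrix ι ι D, 1 + β • M ∈ SI_E i₁ D → 1 + β • M' ∈ SI_E i₁ D →
      1 + β • (M + M') ∈ SI_E i₁ D := by
    intro M M' hM hM'
    have h0 : (β • M) * (β • M') = 0 := by
      rw [Matrix.smul_mul, Matrix.mul_smul, smul_smul, hβ, zero_smul]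
    have : 1 + β • (M + M') = (1 + β • M) * (1 + β • M') := by
      rw [add_mul, mul_add, mul_add, h0, smul_add]
      simp only [one_mul, mul_one, add_zero]
      abel
    rw [this]
    exact Submonoid.mul_mem _ hM hM'
  have hsum : ∀ {κ : Type _} (s : Finset κ) (F : κ → Matrix ι ι D),
      (∀ k ∈ s, 1 + β • F k ∈ SI_E i₁ D) → 1 + β • ∑ k ∈ s, F k ∈ SI_E i₁ D := by
    intro κ s F
    classical
    induction s using Finset.induction_on with
    | empty =>
      intro _
      rw [Finset.sum_empty, smul_zero, add_zero]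
      exact Submonoid.one_mem _
    | insert k s hk ih =>
      intro h
      rw [Finset.sum_insert hk]
      exact hadd _ _ (h k (Finset.mem_insert_self _ _))
        (ih fun x hx => h x (Finset.mem_insert_of_mem hx))
  have hoff : ∀ i j : ι, i ≠ j → ∀ c : D, c = 0 ∨ i ≠ i₁ → 1 + β • Matrix.single i j c ∈ SI_E i₁ D := by
    intro i j hij c hc
    rcases hc with rfl | hi
    · rw [Matrix.single_zero, smul_zero, add_zero]; exact Submonoid.one_mem _
    · have : 1 + β • Matrix.single i j c = transvection i j (β * c) := by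
        rw [transvection, Matrix.smul_single, smul_eq_mul]
      rw [this]
      exact SI_mem i₁ hij hi _
  have hdiag : ∀ i : ι, ∀ c : D, c = 0 ∨ i ≠ i₁ →
      1 + β • (Matrix.single i i c - Matrix.single i₂ i₂ c) ∈ SI_E i₁ D := by
    intro i c hc
    rcases hc with rfl | hi
    · rw [Matrix.single_zero, Matrix.single_zero, sub_zero, smul_zero, add_zero]
      exact Submonoid.one_mem _
    · by_cases h : i = i₂
      · subst h
        rw [sub_self, smul_zero, add_zero]; exact Submonoid.one_mem _
      · have hu : (1 + β * c) * (1 - β * c) = 1 := by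
          linear_combination (-(c * c)) * hβ
        have := SI_diagonal i₁ h hi h12 (1 + β * c) (1 - β * c) hu
        convert this using 1
        ext a b
        by_cases hab : a = b
        · subst hab
          by_cases h1 : a = i₂
          · subst h1
            simp [h]
            ring
          · by_cases h2 : a = i
            · subst h2
              simp [h, Ne.symm h]
            · simp [h1, h2, Ne.symm h1, Ne.symm h2]
        · have e1 : ¬ (i = a ∧ i = b) := fun h => hab (h.1.symm.trans h.2)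
          have e2 : ¬ (i₂ = a ∧ i₂ = b) := fun h => hab (h.1.symm.trans h.2)
          simp [hab, e1, e2]
  -- decomposition of `N`
  have hN : N = (∑ q ∈ (Finset.univ : Finset (ι × ι)),
      (if q.1 = q.2 then Matrix.single q.1 q.1 (N q.1 q.1) - Matrix.single i₂ i₂ (N q.1 q.1)
        else Matrix.single q.1 q.2 (N q.1 q.2))) := by
    have h1 : ∀ q : ι × ι, (if q.1 = q.2 then
        Matrix.single q.1 q.1 (N q.1 q.1) - Matrix.single i₂ i₂ (N q.1 q.1)
        else Matrix.single q.1 q.2 (N q.1 q.2)) = Matrix.single q.1 q.2 (N q.1 q.2) -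
          (if q.1 = q.2 then Matrix.single i₂ i₂ (N q.1 q.1) else 0) := by
      intro q
      split_ifs with h
      · rw [← h]
      · rw [sub_zero]
    rw [Finset.sum_congr rfl fun q _ => h1 q, Finset.sum_sub_distrib]
    have h2 : ∑ q : ι × ι, Matrix.single q.1 q.2 (N q.1 q.2) = N := by
      rw [Fintype.sum_prod_type]
      exact (Matrix.matrix_eq_sum_single N).symm
    have h3 : ∑ q : ι × ι, (if q.1 = q.2 then Matrix.single i₂ i₂ (N q.1 q.1) else 0) = 0 := by
      rw [Fintype.sum_prod_type]
      simp only [Finset.sum_ite_eq, Finset.mem_univ, if_true]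
      ext a b
      rw [Matrix.sum_apply]
      simp only [Matrix.single_apply, Matrix.zero_apply]
      by_cases hab : i₂ = a ∧ i₂ = b
      · rw [Finset.sum_congr rfl (fun x _ => if_pos hab)]
        exact htr
      · exact Finset.sum_eq_zero (fun x _ => if_neg hab)
    rw [h2, h3, sub_zero]
  rw [hN]
  refine hsum _ _ fun q _ => ?_
  split_ifs with h
  · refine hdiag _ _ ?_
    by_cases h1 : q.1 = i₁
    · left; rw [h1]; exact hrow _
    · right; exact h1
  · refine hoff _ _ h _ ?_
    by_cases h1 : q.1 = i₁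
    · left; rw [h1]; exact hrow _
    · right; exact h1

/-- inverses of elements of the image of `A` are in the image of `A` -/
theorem SI_unit (j : A →+* D) (β : D) (hβ : β * β = 0) (hD : ∀ x, ∃ y z, x = j y + j z * β)
    (r : A) (u : D) (h : j r * u = 1) : ∃ a, u = j a := by
  obtain ⟨y, z, hu⟩ := hD u
  refine ⟨y * (1 + (1 - r * y)), ?_⟩
  have h1 : j r * (j y + j z * β) = 1 := by rw [← hu]; exact h
  have h2 : j (1 - r * y) = j r * j z * β := by
    rw [map_sub, map_one, map_mul]; linear_combination (-1 : D) * h1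
  have h3 : j (1 - r * y) * j (1 - r * y) = 0 := by
    rw [h2]; linear_combination (j r * j z * (j r * j z)) * hβ
  have h4 : j r * j (y * (1 + (1 - r * y))) = 1 := by
    have h5 : j r * j (y * (1 + (1 - r * y))) = (1 - j (1 - r * y)) * (1 + j (1 - r * y)) := by
      simp only [map_mul, map_add, map_sub, map_one]; ring
    rw [h5]; linear_combination (-1 : D) * h3
  calc u = u * (j r * j (y * (1 + (1 - r * y)))) := by rw [h4, mul_one]
    _ = (j r * u) * j (y * (1 + (1 - r * y))) := by ring
    _ = _ := by rw [h, one_mul]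

/-- the factorization modulo the conductor -/
theorem SI_factor (j : A →+* D) (β : D) (hβ : β * β = 0) (hD : ∀ x, ∃ y z, x = j y + j z * β)
    (i₁ i₂ : ι) (h12 : i₂ ≠ i₁) (g : Matrix ι ι D) (hg : g.det = 1) (v : ι → A)
    (hv : ∀ k, g i₁ k = j (v k)) :
    ∃ H ∈ SI_E i₁ D, ∃ G : Matrix ι ι A, g = H * G.map j := by
  classical
  have hch : ∀ i k, ∃ y z, g i k = j y + j z * β := fun i k => hD _
  choose G0 G1 hG using hch
  -- the determinant of `G0`
  have hx : ∃ x, 1 = j (Matrix.det (Matrix.of G0)) + β * x := by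
    have h1 : (Ideal.Quotient.mk (Ideal.span {β})) (g.det - j (Matrix.det (Matrix.of G0))) = 0 := by
      rw [map_sub, RingHom.map_det, RingHom.map_det j, RingHom.map_det, sub_eq_zero]
      congr 1
      ext i k
      simp only [RingHom.mapMatrix_apply, Matrix.map_apply, Matrix.of_apply]
      rw [hG i k, map_add, map_mul]
      have : (Ideal.Quotient.mk (Ideal.span {β})) β = 0 :=
        Ideal.Quotient.eq_zero_iff_mem.2 (Ideal.mem_span_singleton_self β)
      rw [this, mul_zero, add_zero]
    rw [Ideal.Quotient.eq_zero_iff_mem, Ideal.mem_span_singleton'] at h1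
    obtain ⟨x, hx⟩ := h1
    refine ⟨x, ?_⟩
    rw [hg] at hx
    linear_combination (-1 : D) * hx
  obtain ⟨x, hx⟩ := hx
  obtain ⟨c, hc⟩ := SI_unit j β hβ hD (Matrix.det (Matrix.of G0)) (1 + β * x) (by
    have : j (Matrix.det (Matrix.of G0)) = 1 - β * x := by linear_combination (-1 : D) * hx
    rw [this]; linear_combination (-(x * x)) * hβ)
  have hdc : j (Matrix.det (Matrix.of G0) * c) = 1 := by
    rw [map_mul, ← hc]
    have : j (Matrix.det (Matrix.of G0)) = 1 - β * x := by linear_combination (-1 : D) * hx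
    rw [this]; linear_combination (-(x * x)) * hβ
  set G0m : Matrix ι ι A := Matrix.of G0 with hG0m
  set G1m : Matrix ι ι A := Matrix.of G1 with hG1m
  have hg2 : g = G0m.map j + β • G1m.map j := by
    ext i k
    simp only [Matrix.add_apply, Matrix.map_apply, Matrix.smul_apply, smul_eq_mul, hG0m, hG1m,
      Matrix.of_apply]
    rw [hG i k]; ring
  set K : Matrix ι ι A := c • G0m.adjugate with hK
  have hGK : G0m.map j * K.map j = 1 := by
    rw [← Matrix.map_mul, hK, Matrix.mul_smul, Matrix.mul_adjugate, smul_smul]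
    ext i k
    simp only [Matrix.map_apply, Matrix.smul_apply, smul_eq_mul, map_mul]
    have : j c * j G0m.det = 1 := by rw [← map_mul, mul_comm]; exact hdc
    rw [this, one_mul, Matrix.one_apply, Matrix.one_apply]
    split_ifs <;> simp
  have hKG : K.map j * G0m.map j = 1 := mul_eq_one_comm.1 hGK
  set N : Matrix ι ι A := G1m * K with hN
  have hNmap : N.map j = G1m.map j * K.map j := by rw [hN, Matrix.map_mul]
  have hg3 : g = (1 + β • N.map j) * G0m.map j := by
    rw [add_mul, one_mul, Matrix.smul_mul, hNmap, Matrix.mul_assoc, hKG, Matrix.mul_one]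
    exact hg2
  -- the row `i₁` of `β N`
  obtain ⟨w, hw⟩ : ∃ w : ι → A, ∀ k, β * j (N i₁ k) = j (w k) := by
    refine ⟨fun k => (v ᵥ* K) k - (1 : Matrix ι ι A) i₁ k, fun k => ?_⟩
    have h1 : g * K.map j = 1 + β • N.map j := by
      rw [hg3, Matrix.mul_assoc, hGK, Matrix.mul_one]
    have h2 := congrFun (congrFun h1 i₁) k
    rw [Matrix.mul_apply, Matrix.add_apply, Matrix.smul_apply, Matrix.map_apply, smul_eq_mul] at h2
    have h3 : ∑ l, g i₁ l * K.map j l k = j ((v ᵥ* K) k) := by
      simp only [Matrix.vecMul, dotProduct, map_sum, map_mul, Matrix.map_apply, hv]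
    rw [h3] at h2
    have h4 : (1 : Matrix ι ι D) i₁ k = j ((1 : Matrix ι ι A) i₁ k) := by
      rw [Matrix.one_apply, Matrix.one_apply]; split_ifs <;> simp
    rw [h4] at h2
    rw [map_sub]
    linear_combination (-1 : D) * h2
  set W : Matrix ι ι A := vecMulVec (Pi.single i₁ 1) w with hW
  set N0 : Matrix ι ι A := N.updateRow i₁ 0 with hN0
  have hβN : β • N.map j = W.map j + β • N0.map j := by
    ext i k
    by_cases hi : i = i₁
    · subst hi
      simp [hW, hN0, vecMulVec_apply, hw]
    · simp [hW, hN0, vecMulVec_apply, hi]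
  have hβNW : β • (N0.map j * W.map j) = 0 := by
    ext i k
    rw [Matrix.smul_apply, Matrix.mul_apply, smul_eq_mul, Finset.mul_sum, Matrix.zero_apply]
    refine Finset.sum_eq_zero fun l _ => ?_
    by_cases hl : l = i₁
    · subst hl
      simp only [hW, Matrix.map_apply, vecMulVec_apply, Pi.single_eq_same, one_mul, ← hw]
      linear_combination (j (N0 i l) * j (N l k)) * hβ
    · simp [hW, vecMulVec_apply, hl]
  set G0p : Matrix ι ι A := (1 + W) * G0m with hG0p
  have hmap1 : ∀ M : Matrix ι ι A, (1 + M).map j = 1 + M.map j := by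
    intro M
    ext i k
    simp only [Matrix.map_apply, Matrix.add_apply, map_add, Matrix.one_apply]
    split_ifs <;> simp
  have hg4 : g = (1 + β • N0.map j) * G0p.map j := by
    rw [hG0p, Matrix.map_mul, hmap1, ← Matrix.mul_assoc]
    have : (1 + β • N0.map j) * (1 + W.map j) = 1 + β • N.map j := by
      rw [add_mul, one_mul, mul_add, mul_one, Matrix.smul_mul, hβNW, hβN, add_zero]
      abel
    rw [this]
    exact hg3
  -- the trace
  have hdet : (1 + β • N0.map j).det = 1 + j N0.trace * β := by
    rw [Matrix.det_one_add_smul]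
    have h1 : β ^ 2 = 0 := by rw [pow_two]; exact hβ
    rw [h1, mul_zero, add_zero]
    congr 2
    simp [Matrix.trace, map_sum]
  obtain ⟨a, ha⟩ := SI_unit j β hβ hD G0p.det (1 + j N0.trace * β) (by
    have h1 := congrArg Matrix.det hg4
    rw [Matrix.det_mul, hg, hdet] at h1
    have h2 : (G0p.map j).det = j G0p.det := by rw [RingHom.map_det]; rfl
    rw [h2] at h1
    rw [mul_comm]
    exact h1.symm)
  set N2 : Matrix ι ι D := N0.map j - Matrix.single i₂ i₂ (j N0.trace) with hN2
  refine ⟨1 + β • N2, ?_, (1 + Matrix.single i₂ i₂ (a - 1)) * G0p, ?_⟩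
  · refine SI_one_add i₁ i₂ h12 β hβ N2 ?_ ?_
    · intro k
      simp [hN2, hN0, h12]
    · simp only [hN2, Matrix.sub_apply, Matrix.map_apply, Matrix.single_apply, and_self,
        Finset.sum_sub_distrib, Finset.sum_ite_eq, Finset.mem_univ, if_true]
      rw [Matrix.trace, map_sum]
      simp
  · rw [Matrix.map_mul, hmap1, ← Matrix.mul_assoc]
    have h1 : (Matrix.single i₂ i₂ (a - 1)).map j = β • Matrix.single i₂ i₂ (j N0.trace) := by
      ext i k
      simp only [Matrix.map_apply, Matrix.single_apply, Matrix.smul_apply, smul_eq_mul]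
      split_ifs
      · rw [map_sub, ← ha, map_one]; ring
      · simp
    have h2 : (1 + β • N2) * (1 + (Matrix.single i₂ i₂ (a - 1)).map j) = 1 + β • N0.map j := by
      rw [h1, add_mul, one_mul, mul_add, mul_one, Matrix.smul_mul, Matrix.mul_smul, smul_smul, hβ,
        zero_smul, add_zero, hN2, smul_sub]
      abel
    rw [h2]
    exact hg4

/-- the subintegral lemma for an injective ring homomorphism -/
theorem SI_hom (j : A →+* D) (hj : Function.Injective j) (b : D) (h2 : ∃ a, j a = b ^ 2)
    (h3 : ∃ a, j a = b ^ 3) (hD : ∀ x, ∃ y z, x = j y + j z * b) (i₁ i₂ : ι) (h12 : i₂ ≠ i₁)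
    (v : ι → A) (hc : Comp (fun i => j (v i))) : Comp v := by
  obtain ⟨g, hg, hgv⟩ := hc.exists_det_eq_one i₁ i₂ h12.symm
  set I : Ideal D := Ideal.span {b ^ 2} with hI
  have hmem : ∀ x ∈ I, ∃ a, j a = x := by
    intro x hx
    rw [hI, Ideal.mem_span_singleton'] at hx
    obtain ⟨y, rfl⟩ := hx
    obtain ⟨p, q, rfl⟩ := hD y
    obtain ⟨a2, ha2⟩ := h2
    obtain ⟨a3, ha3⟩ := h3
    refine ⟨p * a2 + q * a3, ?_⟩
    rw [map_add, map_mul, map_mul, ha2, ha3]; ring
  let π := Ideal.Quotient.mk I
  have hπ : Function.Surjective π := Ideal.Quotient.mk_surjective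
  have hβ : π b * π b = 0 := by
    rw [← map_mul, ← pow_two]
    exact Ideal.Quotient.eq_zero_iff_mem.2 (Ideal.mem_span_singleton_self _)
  obtain ⟨H, hH, G, hHG⟩ := SI_factor (π.comp j) (π b) hβ (by
    intro x
    obtain ⟨x, rfl⟩ := hπ x
    obtain ⟨y, z, rfl⟩ := hD x
    exact ⟨y, z, by simp⟩) i₁ i₂ h12 (g.map π) (by
      have : (g.map π).det = π g.det := by rw [RingHom.map_det]; rfl
      rw [this, hg, map_one]) v (by
      intro k
      rw [Matrix.map_apply, hgv]; rfl)
  obtain ⟨ε, hε, rfl⟩ := SI_lift i₁ π hπ hH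
  obtain ⟨δ, hδ, h4, h5⟩ := SI_inv i₁ hε
  -- the entries of `δ g`
  have hent : ∀ i k, ∃ a, j a = (δ * g) i k := by
    intro i k
    have h6 : (δ * g).map π = G.map (π.comp j) := by
      rw [Matrix.map_mul, hHG, ← Matrix.mul_assoc, ← Matrix.map_mul, h5,
        Matrix.map_one _ (map_zero π) (map_one π), Matrix.one_mul]
    have h7 := congrFun (congrFun h6 i) k
    rw [Matrix.map_apply, Matrix.map_apply, RingHom.comp_apply] at h7
    obtain ⟨a, ha⟩ := hmem _ ((Ideal.Quotient.mk_eq_mk_iff_sub_mem _ _).1 h7)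
    refine ⟨a + G i k, ?_⟩
    rw [map_add, ha]; ring
  choose F hF using hent
  refine ⟨i₁, Matrix.of F, ?_, ?_⟩
  · have h6 : j (Matrix.of F).det = 1 := by
      rw [RingHom.map_det]
      have : j.mapMatrix (Matrix.of F) = δ * g := by
        ext i k
        exact hF i k
      rw [this, Matrix.det_mul, SI_det i₁ hδ, hg, one_mul]
    have h7 : (Matrix.of F).det = 1 := hj (by rw [h6, map_one])
    rw [h7]; exact isUnit_one
  · ext k
    apply hj
    rw [show (Matrix.of F) i₁ k = F i₁ k from rfl, hF]
    have h6 : (δ * g) i₁ = δ i₁ ᵥ* g := by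
      ext k
      simp [Matrix.mul_apply, Matrix.vecMul, dotProduct]
    rw [h6, SI_row i₁ hδ, Matrix.single_one_vecMul]
    exact congrFun hgv k

end SI

theorem SI : SI_stmt.{u} := by
  intro B _ S T b hST h2 h3 hT hb ι _ _ hcard v _ hc
  obtain ⟨i₁, i₂, h12⟩ := Fintype.exists_pair_of_one_lt_card (α := ι) (by omega)
  refine SI_hom (Subring.inclusion hST) (Subring.inclusion_injective hST) ⟨b, hb⟩ ⟨⟨b ^ 2, h2⟩, ?_⟩
    ⟨⟨b ^ 3, h3⟩, ?_⟩ ?_ i₁ i₂ (Ne.symm h12) v hc
  · rfl
  · rfl
  · rintro ⟨x, hx⟩
    obtain ⟨y, hy, z, hz, rfl⟩ := hT x hx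
    exact ⟨⟨y, hy⟩, ⟨z, hz⟩, rfl⟩

end GB
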