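import Pool.Agent.helper65.GB.K1
import Pool.Agent.helper70.GB.SpecK

/-!
Modules TT and TI of project gb (MP_7933bc): injective stability of `K_1` in the form of SpecK.
-/

set_option autoImplicit false

open Matrix

namespace GB

universe u

theorem TI : TI_stmt.{u} := by
  intro A _ ι κ _ _ _ _ hcard hSR g hg
  exact K1_iter (n := Fintype.card ι - 1) (by omega) (hSR _ (by omega)) (by omega) g hg

theorem TT : TT_stmt.{u} := by
  intro A _ m hm hSR g hg
  exact K1_iter (n := m - 1) (by omega) hSR (by rw [Fintype.card_fin]; omega) g hg

end GB
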